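import Mathlib

set_option autoImplicit false
set_option maxHeartbeats 400000
open Set Filter Topology Metric Complex
open scoped Real

namespace Pool.Agent.KS6_2.RX

def V (X : Set ℂ) : Submodule ℂ (ℂ → ℂ) :=
  Submodule.span ℂ ({f | ∃ p : Polynomial ℂ, f = fun z => p.eval z} ∪
    {f | ∃ c, c ∉ X ∧ f = fun z => (z - c)⁻¹})

variable {X : Set ℂ}

lemma ne_of {c z : ℂ} (hc : c ∉ X) (hz : z ∈ X) : z - c ≠ 0 :=
  sub_ne_zero.2 (by rintro rfl; exact hc hz)

lemma V_p (p : Polynomial ℂ) : (fun z => p.eval z) ∈ V X :=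
  Submodule.subset_span (Or.inl ⟨p, rfl⟩)

lemma V_u {c : ℂ} (hc : c ∉ X) : (fun z => (z - c)⁻¹) ∈ V X :=
  Submodule.subset_span (Or.inr ⟨c, hc, rfl⟩)

lemma V_cont {f : ℂ → ℂ} (hf : f ∈ V X) : ContinuousOn f X := by
  induction hf using Submodule.span_induction with
  | mem f h =>
    rcases h with ⟨p, rfl⟩ | ⟨c, hc, rfl⟩
    · exact p.continuous.continuousOn
    · exact ContinuousOn.inv₀ (by fun_prop) fun z hz => ne_of hc hz
  | zero => exact continuousOn_const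
  | add f g _ _ a b => exact a.add b
  | smul c f _ a => exact a.const_smul c

def Cl (X : Set ℂ) (f : ℂ → ℂ) : Prop := ∀ ε > 0, ∃ v ∈ V X, ∀ z ∈ X, ‖f z - v z‖ ≤ ε

lemma Cl.of_mem {f v : ℂ → ℂ} (hv : v ∈ V X) (h : ∀ z ∈ X, f z = v z) : Cl X f :=
  fun ε hε => ⟨v, hv, fun z hz => by rw [h z hz, sub_self, norm_zero]; exact hε.le⟩

lemma Cl.lim {f : ℂ → ℂ} (h : ∀ ε > 0, ∃ g, Cl X g ∧ ∀ z ∈ X, ‖f z - g z‖ ≤ ε) : Cl X f := by
  intro ε hε
  obtain ⟨g, hg, a⟩ := h (ε / 2) (by positivity)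
  obtain ⟨v, hv, b⟩ := hg (ε / 2) (by positivity)
  refine ⟨v, hv, fun z hz => ?_⟩
  linarith [norm_sub_le_norm_sub_add_norm_sub (f z) (g z) (v z), a z hz, b z hz]

lemma Cl.comb {f g k : ℂ → ℂ} (c : ℂ) (hf : Cl X f) (hg : Cl X g)
    (h : ∀ z ∈ X, k z = c * f z + g z) : Cl X k := by
  intro ε hε
  obtain ⟨v, hv, a⟩ := hf (ε / (‖c‖ + 1)) (by positivity)
  obtain ⟨w, hw, b⟩ := hg (ε / (‖c‖ + 1)) (by positivity)
  refine ⟨c • v + w, (V X).add_mem ((V X).smul_mem c hv) hw, fun z hz => ?_⟩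
  have e : k z - (c • v + w) z = c * (f z - v z) + (g z - w z) := by
    rw [h z hz]; simp; ring
  rw [e]
  refine (norm_add_le _ _).trans ?_
  rw [norm_mul]
  calc _ ≤ ‖c‖ * (ε / (‖c‖ + 1)) + ε / (‖c‖ + 1) := by
        gcongr
        · exact a z hz
        · exact b z hz
    _ = ε := by field_simp

lemma Cl.mulu (hX : IsClosed X) {c : ℂ} (hc : c ∉ X) {f : ℂ → ℂ} (hf : Cl X f) :
    Cl X (fun z => f z * (z - c)⁻¹) := by
  obtain ⟨δ, hδ, hb⟩ := Metric.isOpen_iff.1 hX.isOpen_compl c hc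
  have hb' : ∀ z ∈ X, δ ≤ ‖z - c‖ := fun z hz => by
    by_contra h
    exact hb (mem_ball_iff_norm.2 (not_le.1 h)) hz
  have h0 : Cl X 0 := Cl.of_mem (V X).zero_mem fun _ _ => rfl
  have key : ∀ c', c' ∉ X → c' ≠ c → Cl X (fun z => (z - c')⁻¹ * (z - c)⁻¹) := by
    intro c' h1 h2
    refine Cl.of_mem ((V X).smul_mem (c' - c)⁻¹ ((V X).sub_mem (V_u h1) (V_u hc))) fun z hz => ?_
    have := ne_of h1 hz
    have := ne_of hc hz
    have := sub_ne_zero.2 h2
    simp only [Pi.smul_apply, Pi.sub_apply, smul_eq_mul]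
    field_simp
    ring
  have s1 : ∀ v ∈ V X, Cl X (fun z => v z * (z - c)⁻¹) := by
    intro v hv
    induction hv using Submodule.span_induction with
    | mem f h =>
      rcases h with ⟨p, rfl⟩ | ⟨c', hc', rfl⟩
      · obtain ⟨s, hs⟩ := Polynomial.X_sub_C_dvd_sub_C_eval (p := p) (a := c)
        refine Cl.comb (p.eval c) (Cl.of_mem (V_u hc) fun _ _ => rfl)
          (Cl.of_mem (V_p s) fun _ _ => rfl) fun z hz => ?_
        have h1 := congrArg (Polynomial.eval z) hs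
        simp only [Polynomial.eval_sub, Polynomial.eval_C, Polynomial.eval_mul,
          Polynomial.eval_X] at h1
        have := ne_of hc hz
        field_simp
        linear_combination h1
      · by_cases h : c' = c
        · subst h
          refine Cl.lim fun ε hε => ?_
          obtain ⟨t, t0, t1, t2⟩ : ∃ t : ℝ, 0 < t ∧ t ≤ δ / 2 ∧ t ≤ ε * (δ * (δ / 2) * δ) :=
            ⟨min _ _, lt_min (by positivity) (by positivity), min_le_left _ _, min_le_right _ _⟩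
          have ht : ‖(t : ℂ)‖ = t := by simp [abs_of_pos t0]
          have h1 : c' + t ∉ X := hb (by rw [mem_ball_iff_norm, add_sub_cancel_left, ht]; linarith)
          refine ⟨_, key (c' + t) h1 (by simpa using t0.ne'), fun z hz => ?_⟩
          have a1 := ne_of h1 hz
          have a2 := ne_of hc hz
          have a3 := hb' z hz
          have a4 : δ / 2 ≤ ‖z - (c' + t)‖ := by
            have := norm_add_le (z - (c' + t)) t
            rw [show z - (c' + t) + t = z - c' by ring, ht] at this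
            linarith
          have e : (z - c')⁻¹ * (z - c')⁻¹ - (z - (c' + t))⁻¹ * (z - c')⁻¹ =
              -t / ((z - c') * (z - (c' + t)) * (z - c')) := by field_simp; ring
          rw [e, norm_div, norm_neg, ht, norm_mul, norm_mul, div_le_iff₀ (by
            have := norm_pos_iff.2 a1; have := norm_pos_iff.2 a2; positivity)]
          refine t2.trans ?_
          gcongr
        · exact key c' hc' h
    | zero => exact Cl.of_mem (V X).zero_mem fun _ _ => by simp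
    | add f g _ _ a b => exact Cl.comb 1 a b fun z _ => by simp [add_mul]
    | smul d f _ a => exact Cl.comb d a h0 fun z _ => by simp [mul_assoc]
  refine Cl.lim fun ε hε => ?_
  obtain ⟨v, hv, a⟩ := hf (ε * δ) (by positivity)
  refine ⟨_, s1 v hv, fun z hz => ?_⟩
  rw [← sub_mul, norm_mul, norm_inv, ← div_eq_mul_inv,
    div_le_iff₀ (norm_pos_iff.2 (ne_of hc hz))]
  exact (a z hz).trans (mul_le_mul_of_nonneg_left (hb' z hz) hε.le)

lemma dense (hX : IsClosed X) (p : Polynomial ℂ) : ∀ (n : ℕ) (q : Polynomial ℂ), q.natDegree = n →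
    (∀ z ∈ X, q.eval z ≠ 0) → Cl X (fun z => p.eval z / q.eval z) := by
  intro n
  induction n with
  | zero =>
    intro q hq _
    rw [Polynomial.eq_C_of_natDegree_eq_zero hq]
    exact Cl.of_mem ((V X).smul_mem (q.coeff 0)⁻¹ (V_p p)) fun z _ => by
      simp [div_eq_inv_mul]
  | succ n ih =>
    intro q hq h
    obtain ⟨c, hc⟩ := Complex.exists_root (f := q)
      (Polynomial.natDegree_pos_iff_degree_pos.1 (by omega))
    obtain ⟨s, rfl⟩ := Polynomial.dvd_iff_isRoot.2 hc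
    have hs : s ≠ 0 := by rintro rfl; simp at hq
    rw [Polynomial.natDegree_mul (Polynomial.X_sub_C_ne_zero c) hs,
      Polynomial.natDegree_X_sub_C] at hq
    have h1 := (ih s (by omega) fun z hz h0 => h z hz (by simp [h0])).mulu hX
      (c := c) fun hz => h c hz hc
    refine Cl.comb 0 h1 h1 fun z _ => ?_
    simp [div_eq_mul_inv, mul_assoc]

noncomputable def T (a : ℂ) (ρ : ℝ) (f : ℂ → ℂ) (z : ℂ) : ℂ :=
  (2 * π * I : ℂ)⁻¹ • ∮ ζ in C(a, ρ), (ζ - z)⁻¹ * f ζ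

lemma T_bd {a z : ℂ} {ρ B : ℝ} {f : ℂ → ℂ} (h0 : 0 < ρ) (hz : ρ < ‖z - a‖)
    (hB : ∀ ζ ∈ sphere a ρ, ‖f ζ‖ ≤ B) : ‖T a ρ f z‖ ≤ ρ / (‖z - a‖ - ρ) * B := by
  have := circleIntegral.norm_two_pi_i_inv_smul_integral_le_of_norm_le_const (c := a)
    (f := fun ζ => (ζ - z)⁻¹ * f ζ) (C := (‖z - a‖ - ρ)⁻¹ * B) h0.le (fun ζ hζ => by
      rw [norm_mul, norm_inv]
      have h1 := norm_sub_le_norm_sub_add_norm_sub z ζ a
      rw [mem_sphere_iff_norm.1 hζ, norm_sub_rev z ζ] at h1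
      exact mul_le_mul (inv_anti₀ (by linarith) (by linarith)) (hB ζ hζ) (norm_nonneg _)
        (inv_nonneg.2 (by linarith)))
  rwa [← mul_assoc, ← div_eq_mul_inv] at this

lemma int0 {a : ℂ} {ρ : ℝ} (h0 : 0 < ρ) {f : ℂ → ℂ} (hf : DifferentiableOn ℂ f (closedBall a ρ)) :
    ∮ ζ in C(a, ρ), f ζ = 0 :=
  DiffContOnCl.circleIntegral_eq_zero h0.le
    (DifferentiableOn.diffContOnCl (by rwa [closure_ball a h0.ne']))

lemma dinv {S : Set ℂ} {c : ℂ} (hc : c ∉ S) : DifferentiableOn ℂ (fun ζ => (ζ - c)⁻¹) S :=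
  DifferentiableOn.inv (by fun_prop) fun _ h => ne_of hc h

lemma T_zero {a z : ℂ} {ρ : ℝ} (h0 : 0 < ρ) (hz : z ∉ closedBall a ρ) {f : ℂ → ℂ}
    (hf : DifferentiableOn ℂ f (closedBall a ρ)) : T a ρ f z = 0 := by
  rw [T, int0 h0 ((dinv hz).fun_mul hf), smul_zero]

lemma ci {a : ℂ} {ρ : ℝ} (h0 : 0 < ρ) {z : ℂ} (hz : z ∉ sphere a ρ) {f : ℂ → ℂ}
    (hf : ContinuousOn f (sphere a ρ)) : CircleIntegrable (fun ζ => (ζ - z)⁻¹ * f ζ) a ρ :=
  ContinuousOn.circleIntegrable h0.le ((dinv hz).continuousOn.mul hf)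

lemma T_pole {a z c : ℂ} {ρ : ℝ} (hc : c ∈ ball a ρ) (hz : z ∉ closedBall a ρ) :
    T a ρ (fun ζ => (ζ - c)⁻¹) z = -(z - c)⁻¹ := by
  have h0 := pos_of_mem_ball hc
  have hc' : c ∉ sphere a ρ := fun h => (mem_ball.1 hc).ne h
  have hz' : z ∉ sphere a ρ := fun h => hz (sphere_subset_closedBall h)
  have hzc : z - c ≠ 0 := sub_ne_zero.2 (by rintro rfl; exact hz (ball_subset_closedBall hc))
  have e : ∮ ζ in C(a, ρ), (ζ - z)⁻¹ * (ζ - c)⁻¹ =
      ∮ ζ in C(a, ρ), (z - c)⁻¹ • ((ζ - z)⁻¹ - (ζ - c)⁻¹) := by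
    apply circleIntegral.integral_congr h0.le
    intro ζ hζ
    have := ne_of hc' hζ
    have := ne_of hz' hζ
    simp only [smul_eq_mul]
    field_simp
    ring
  rw [T, e, circleIntegral.integral_smul, circleIntegral.integral_sub
    (ContinuousOn.circleIntegrable h0.le (dinv hz').continuousOn)
    (ContinuousOn.circleIntegrable h0.le (dinv hc').continuousOn), int0 h0 (dinv hz),
    circleIntegral.integral_sub_inv_of_mem_ball hc]
  have := two_pi_I_ne_zero
  simp only [smul_eq_mul]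
  field_simp
  ring

lemma decomp {W : Set ℂ} {ι : Type} {a : ι → ℂ} {ρ : ι → ℝ} (h0 : ∀ i, 0 < ρ i)
    (hs : ∀ i, sphere (a i) (ρ i) ⊆ X)
    (hd : ∀ i j, i ≠ j → Disjoint (closedBall (a i) (ρ i)) (closedBall (a j) (ρ j)))
    (hW : ∀ c ∈ W, c ∉ X → ∃ i, c ∈ ball (a i) (ρ i)) {f : ℂ → ℂ} (hf : f ∈ V X) :
    ∀ᶠ A : Finset ι in atTop, ∃ g, DifferentiableOn ℂ g W ∧
      ∀ z, (∀ i, z ∉ closedBall (a i) (ρ i)) → g z = f z + ∑ i ∈ A, T (a i) (ρ i) f z := by
  induction hf using Submodule.span_induction with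
  | mem f h =>
    rcases h with ⟨p, rfl⟩ | ⟨c, hc, rfl⟩
    · refine Eventually.of_forall fun A => ⟨_, p.differentiableOn, fun z hz => ?_⟩
      rw [Finset.sum_eq_zero fun i _ => T_zero (h0 i) (hz i) p.differentiableOn, add_zero]
    · by_cases h : ∃ i, c ∈ ball (a i) (ρ i)
      · obtain ⟨i, hi⟩ := h
        filter_upwards [eventually_ge_atTop {i}] with A hA
        refine ⟨0, differentiableOn_const _, fun z hz => ?_⟩
        rw [Finset.sum_eq_single_of_mem i (hA (Finset.mem_singleton_self i)) fun j _ hj =>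
          T_zero (h0 j) (hz j) (dinv (disjoint_left.1 (hd i j hj.symm)
            (ball_subset_closedBall hi))), T_pole hi (hz i)]
        simp
      · refine Eventually.of_forall fun A => ⟨_, dinv fun hw => h (hW c hw hc), fun z hz => ?_⟩
        rw [Finset.sum_eq_zero fun i _ => T_zero (h0 i) (hz i) (dinv fun h1 => ?_), add_zero]
        rcases (mem_closedBall.1 h1).lt_or_eq with h2 | h2
        · exact h ⟨i, h2⟩
        · exact hc (hs i h2)
  | zero =>
    exact Eventually.of_forall fun A => ⟨0, differentiableOn_const _, fun z _ => by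
      simp [T, circleIntegral]⟩
  | add f g hf hg x y =>
    filter_upwards [x, y] with A ⟨F, a1, a2⟩ ⟨G, b1, b2⟩
    refine ⟨F + G, a1.add b1, fun z hz => ?_⟩
    have : ∀ i, T (a i) (ρ i) (f + g) z = T (a i) (ρ i) f z + T (a i) (ρ i) g z := by
      intro i
      have hz' : z ∉ sphere (a i) (ρ i) := fun h => hz i (sphere_subset_closedBall h)
      simp only [T, Pi.add_apply, mul_add]
      rw [circleIntegral.integral_add (ci (h0 i) hz' ((V_cont hf).mono (hs i)))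
        (ci (h0 i) hz' ((V_cont hg).mono (hs i))), smul_add]
    simp only [this, Finset.sum_add_distrib, Pi.add_apply, a2 z hz, b2 z hz]
    ring
  | smul c f _ x =>
    filter_upwards [x] with A ⟨F, a1, a2⟩
    refine ⟨c • F, a1.const_smul c, fun z hz => ?_⟩
    have : ∀ i, T (a i) (ρ i) (c • f) z = c * T (a i) (ρ i) f z := by
      intro i
      simp only [T, Pi.smul_apply, smul_eq_mul, mul_left_comm _ c]
      rw [circleIntegral.integral_const_mul]
      ring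
    simp only [this, Pi.smul_apply, a2 z hz, smul_eq_mul, mul_add, Finset.mul_sum]

lemma approx {W : Set ℂ} {ι : Type} {a : ι → ℂ} {ρ : ι → ℝ} (h0 : ∀ i, 0 < ρ i)
    (hs : ∀ i, sphere (a i) (ρ i) ⊆ X)
    (hd : ∀ i j, i ≠ j → Disjoint (closedBall (a i) (ρ i)) (closedBall (a j) (ρ j)))
    (hW : ∀ c ∈ W, c ∉ X → ∃ i, c ∈ ball (a i) (ρ i)) {f : ℂ → ℂ} (hf : f ∈ V X) {B η : ℝ}
    (hB0 : 0 ≤ B) (hB : ∀ z ∈ X, ‖f z‖ ≤ B) :
    ∃ g, DifferentiableOn ℂ g W ∧ ∀ z, (∀ i, ρ i < ‖z - a i‖) →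
      (∀ A : Finset ι, ∑ i ∈ A, ρ i / (‖z - a i‖ - ρ i) ≤ η) → ‖g z - f z‖ ≤ η * B := by
  obtain ⟨A, g, a1, a2⟩ := (decomp h0 hs hd hW hf).exists
  refine ⟨g, a1, fun z b1 b2 => ?_⟩
  rw [a2 z fun i h => (b1 i).not_ge (mem_closedBall_iff_norm.1 h), add_sub_cancel_left]
  refine (norm_sum_le_of_le _ fun i _ => T_bd (h0 i) (b1 i) fun ζ h => hB ζ (hs i h)).trans ?_
  rw [← Finset.sum_mul]
  exact mul_le_mul_of_nonneg_right (b2 A) hB0

lemma tc {h M t : ℝ} (h0 : 0 < h) (ht : 0 ≤ t) {g : ℂ → ℂ}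
    (hg : DifferentiableOn ℂ g (Icc (-1) 1 ×ℂ Icc (-h) h))
    (h1 : ∀ z ∈ Icc (-1) 1 ×ℂ Icc (-h) h, z.im = -h ∨ z.im = h → ‖g z‖ ≤ M)
    (h2 : ∀ z ∈ Icc (-1) 1 ×ℂ Icc (-h) h, z.re = -1 ∨ z.re = 1 →
      ‖g z‖ ≤ M * Real.exp (-(t * Real.exp (π / (2 * h))))) : ‖g 0‖ ≤ M * Real.exp (-t) := by
  obtain ⟨κ, hκ⟩ : ∃ κ, κ = π / (2 * h) := ⟨_, rfl⟩
  have hκ0 : 0 ≤ κ := by rw [hκ]; positivity
  have hκ1 : κ * h = π / 2 := by rw [hκ]; field_simp
  rw [← hκ] at h2
  have hcl : closure (Ioo (-1 : ℝ) 1 ×ℂ Ioo (-h) h) = Icc (-1) 1 ×ℂ Icc (-h) h := by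
    rw [closure_reProdIm, closure_Ioo (by norm_num), closure_Ioo (by linarith)]
  have hn : ∀ z : ℂ, ‖g z * cexp (t * cexp (κ * z))‖ =
      ‖g z‖ * Real.exp (t * (Real.exp (κ * z.re) * Real.cos (κ * z.im))) := by
    intro z
    rw [norm_mul, norm_exp, re_ofReal_mul, exp_re, re_ofReal_mul, im_ofReal_mul]
  have := norm_le_of_forall_mem_frontier_norm_le (f := fun z => g z * cexp (t * cexp (κ * z)))
    (U := Ioo (-1 : ℝ) 1 ×ℂ Ioo (-h) h) (C := M) (z := 0)
    ((isBounded_Ioo _ _).reProdIm (isBounded_Ioo _ _))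
    (DifferentiableOn.diffContOnCl (by rw [hcl]; exact hg.fun_mul (by fun_prop))) ?_
    (by rw [hcl, mem_reProdIm]; simp [h0.le])
  · rw [hn] at this
    simp only [zero_re, zero_im, mul_zero, Real.exp_zero, Real.cos_zero, mul_one] at this
    rwa [Real.exp_neg, ← div_eq_mul_inv, le_div_iff₀ (Real.exp_pos t)]
  · intro z hz
    have hz1 := frontier_subset_closure hz
    rw [hcl] at hz1
    rw [frontier_reProdIm, frontier_Ioo (show (-1 : ℝ) < 1 by norm_num),
      frontier_Ioo (show -h < h by linarith)] at hz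
    rw [hn]
    rcases hz with hz | hz
    · have a1 : Real.cos (κ * z.im) = 0 := by
        rcases hz.2 with a | a <;> rw [show z.im = _ from a] <;> simp [hκ1]
      rw [a1, mul_zero, mul_zero, Real.exp_zero, mul_one]
      exact h1 z hz1 hz.2
    · have a1 := h2 z hz1 hz.1
      rw [Real.exp_neg, ← div_eq_mul_inv, le_div_iff₀ (Real.exp_pos _)] at a1
      refine le_trans ?_ a1
      gcongr
      refine (mul_le_of_le_one_right (Real.exp_pos _).le (Real.cos_le_one _)).trans ?_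
      exact Real.exp_le_exp.2 (mul_le_of_le_one_right hκ0 hz1.1.2)

end Pool.Agent.KS6_2.RX
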