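import Pool.Agent.KS6_2.RX.S
import Pool.Agent.KS6_2.RX.C

set_option autoImplicit false
open Set Filter Topology Metric Complex
open scoped Real

namespace Pool.Agent.KS6_2.RX

/-- the open square -/
def sq : Set ℂ := Ioo (-1) 1 ×ℂ Ioo (-1) 1

lemma sq_open : IsOpen sq := isOpen_Ioo.reProdIm isOpen_Ioo

lemma sq_pre : IsPreconnected sq :=
  (((convex_Ioo (-1 : ℝ) 1).linear_preimage Complex.reLm).inter
    ((convex_Ioo (-1 : ℝ) 1).linear_preimage Complex.imLm)).isPreconnected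

noncomputable def box (M : ℕ) : Finset (ℤ × ℤ) := Finset.Ico (-M : ℤ) M ×ˢ Finset.Ico (-M : ℤ) M

lemma in1s {M : ℕ} (hM : 0 < M) {j : ℤ} (hj : j ∈ Finset.Ico (-M : ℤ) M) {t : ℝ}
    (h : |t - (j + 1 / 2) / M| ≤ 1 / (4 * M)) : t ∈ Ioo (-1 : ℝ) 1 := by
  have h0 : (0 : ℝ) < M := by positivity
  rw [Finset.mem_Ico] at hj
  have a1 : (-M : ℝ) ≤ j := by exact_mod_cast hj.1
  have a2 : (j + 1 : ℝ) ≤ M := by exact_mod_cast hj.2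
  rw [abs_le] at h
  have e : (1 : ℝ) / (4 * M) * M = 1 / 4 := by field_simp
  have e2 : (j + 1 / 2 : ℝ) / M * M = j + 1 / 2 := by field_simp
  constructor
  · by_contra hcon
    push Not at hcon
    nlinarith [h.1, h.2]
  · by_contra hcon
    push Not at hcon
    nlinarith [h.1, h.2]

lemma in2 {M : ℕ} (hM : 0 < M) {j : ℤ} {t : ℝ} (ht : t ∈ Icc (-1 : ℝ) 1)
    (h : |t - (j + 1 / 2) / M| ≤ 1 / (4 * M)) : j ∈ Finset.Ico (-M : ℤ) M := by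
  have h0 : (0 : ℝ) < M := by positivity
  rw [abs_le] at h
  have e : (1 : ℝ) / (4 * M) * M = 1 / 4 := by field_simp
  have e2 : (j + 1 / 2 : ℝ) / M * M = j + 1 / 2 := by field_simp
  have a1 : (-M : ℝ) < j + 1 := by nlinarith [h.1, h.2, ht.1, ht.2]
  have a2 : (j : ℝ) < M := by nlinarith [h.1, h.2, ht.1, ht.2]
  rw [Finset.mem_Ico]
  exact ⟨Int.lt_add_one_iff.1 (by exact_mod_cast a1), by exact_mod_cast a2⟩

/-- the discs of a new level -/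
def newD (T : Set ℂ) (N : ℕ) (r : ℝ) : Set ℂ :=
  {z | ∃ q, Disjoint (closedBall (gp N q) r) T ∧ z ∈ closedBall (gp N q) r}

lemma r_small {N : ℕ} (hN : 0 < N) {r : ℝ} (r0 : 0 < r) (h : (N : ℝ) ^ 2 * r ≤ 1 / 4) :
    r ≤ 1 / (4 * N) := by
  have h1 : (1 : ℝ) ≤ N := by exact_mod_cast hN
  rw [le_div_iff₀ (by positivity)]
  nlinarith [mul_nonneg (mul_pos r0 (zero_lt_one.trans_le h1)).le (sub_nonneg.2 h1)]

lemma nx {T : Set ℂ} (ho : IsOpen (sq \ T)) (hc : IsPreconnected (sq \ T)) {N : ℕ} (hN : 0 < N)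
    {r : ℝ} (r0 : 0 < r) (h : (N : ℝ) ^ 2 * r ≤ 1 / 4) :
    IsOpen (sq \ (T ∪ newD T N r)) ∧ IsPreconnected (sq \ (T ∪ newD T N r)) ∧
      ∀ z ∈ closure (sq \ T), (∀ q, Disjoint (closedBall (gp N q) r) T → r ≤ ‖z - gp N q‖) →
        z ∈ closure (sq \ (T ∪ newD T N r)) := by
  classical
  have hr := r_small hN r0 h
  have hN0 : (0 : ℝ) < N := by exact_mod_cast hN
  obtain ⟨F, hF⟩ : ∃ F, F = (box N).filter fun q => Disjoint (closedBall (gp N q) r) T := ⟨_, rfl⟩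
  have hFm : ∀ q, q ∈ F ↔ q ∈ box N ∧ Disjoint (closedBall (gp N q) r) T := fun q => by
    rw [hF, Finset.mem_filter]
  have e : sq \ (T ∪ newD T N r) = (sq \ T) \ ⋃ q ∈ F, closedBall (gp N q) r := by
    ext z
    constructor
    · rintro ⟨h1, h2⟩
      refine ⟨⟨h1, fun h => h2 (Or.inl h)⟩, fun h3 => h2 (Or.inr ?_)⟩
      obtain ⟨q, hq, hz⟩ := mem_iUnion₂.1 h3
      exact ⟨q, ((hFm q).1 hq).2, hz⟩
    · rintro ⟨⟨h1, h2⟩, h3⟩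
      refine ⟨h1, fun h4 => ?_⟩
      rcases h4 with h4 | ⟨q, hq, hz⟩
      · exact h2 h4
      · refine h3 (mem_iUnion₂.2 ⟨q, (hFm q).2 ⟨Finset.mem_product.2 ⟨?_, ?_⟩, hq⟩, hz⟩)
        · exact in2 hN ⟨h1.1.1.le, h1.1.2.le⟩ ((re_le z N q).trans
            ((mem_closedBall_iff_norm.1 hz).trans hr))
        · exact in2 hN ⟨h1.2.1.le, h1.2.2.le⟩ ((im_le z N q).trans
            ((mem_closedBall_iff_norm.1 hz).trans hr))
  have hsub : ∀ q ∈ F, closedBall (gp N q) r ⊆ sq \ T := by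
    intro q hq z hz
    obtain ⟨h1, h2⟩ := (hFm q).1 hq
    have h3 := Finset.mem_product.1 h1
    exact ⟨⟨in1s hN h3.1 ((re_le z N q).trans ((mem_closedBall_iff_norm.1 hz).trans hr)),
      in1s hN h3.2 ((im_le z N q).trans ((mem_closedBall_iff_norm.1 hz).trans hr))⟩,
      disjoint_left.1 h2 hz⟩
  have hdis : ∀ q ∈ F, ∀ q' ∈ F, q ≠ q' →
      Disjoint (closedBall (gp N q) r) (closedBall (gp N q') r) := by
    intro q _ q' _ hne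
    apply closedBall_disjoint_closedBall
    rw [dist_eq_norm]
    have a1 := gp_sep hN hne
    have a2 : (1 : ℝ) / N = 4 * (1 / (4 * N)) := by field_simp
    linarith
  obtain ⟨c1, c2⟩ := conn_fin hc ho F (gp N) r0.le hsub hdis
  rw [e]
  refine ⟨c1, c2, fun z hz hq => ?_⟩
  by_cases hU : z ∈ ⋃ q ∈ F, closedBall (gp N q) r
  · obtain ⟨q, hqF, hzq⟩ := mem_iUnion₂.1 hU
    have h1 := hq q ((hFm q).1 hqF).2
    have hz1 := hsub q hqF hzq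
    have d1 := (conn_fin hc ho (F.erase q) (gp N) r0.le
      (fun i hi => hsub i (Finset.mem_of_mem_erase hi)) fun i hi j hj =>
        hdis i (Finset.mem_of_mem_erase hi) j (Finset.mem_of_mem_erase hj)).1
    have hzU : z ∈ (sq \ T) \ ⋃ i ∈ F.erase q, closedBall (gp N i) r := by
      refine ⟨hz1, fun h2 => ?_⟩
      obtain ⟨i, hi, hzi⟩ := mem_iUnion₂.1 h2
      exact disjoint_left.1 (hdis q hqF i (Finset.mem_of_mem_erase hi)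
        (Finset.ne_of_mem_erase hi).symm) hzq hzi
    have hzc : z ∈ closure (closedBall (gp N q) r)ᶜ := by
      rw [closure_compl, interior_closedBall _ r0.ne', mem_compl_iff, mem_ball_iff_norm, not_lt]
      exact h1
    have h3 := d1.inter_closure ⟨hzU, hzc⟩
    refine closure_mono ?_ h3
    rintro w ⟨⟨w1, w2⟩, w3⟩
    refine ⟨w1, fun h4 => ?_⟩
    obtain ⟨i, hi, hwi⟩ := mem_iUnion₂.1 h4
    by_cases hiq : i = q
    · subst hiq; exact w3 hwi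
    · exact w2 (mem_iUnion₂.2 ⟨i, Finset.mem_erase.2 ⟨hiq, hi⟩, hwi⟩)
  · have hcl : IsOpen (⋃ q ∈ F, closedBall (gp N q) r)ᶜ := by
      rw [isOpen_compl_iff]
      exact F.finite_toSet.isClosed_biUnion fun _ _ => isClosed_closedBall
    have h3 := hcl.inter_closure (t := sq \ T) (show z ∈ _ ∩ _ from ⟨hU, hz⟩)
    refine closure_mono ?_ h3
    rintro w ⟨w1, w2⟩
    exact ⟨w2, w1⟩

/-- the mesh points of a level -/
def PP (N : ℕ) : Set ℂ :=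
  (fun q : ℤ × ℤ => (⟨q.1 / N, q.2 / N⟩ : ℂ)) '' (Icc (-N : ℤ) N ×ˢ Icc (-N : ℤ) N)

lemma PP_fin (N : ℕ) : (PP N).Finite :=
  ((finite_Icc _ _).prod (finite_Icc _ _)).image _

lemma step' (n : ℕ) {N : ℕ} (hN : 0 < N) {r η κ : ℝ} (hr : 0 < r) (hη : 0 < η) (hκ : 0 < κ) :
    ∃ (N' : ℕ) (r' : ℝ), 0 < N' ∧ 0 < r' ∧ 4 * N ∣ N' ∧ N' ^ 2 * r' ≤ N ^ 2 * r / 2 ∧
      N' ^ 2 * r' ≤ η ∧ (∃ L : ℕ, 4 * n ≤ N' ^ 2 * r' * ∑ i ∈ Finset.range L, (1 / (i + 1) : ℝ) ∧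
        L * L ≤ N' ∧ 2 * L + 1 ≤ r * N') ∧ 4 ≤ κ * N' := by
  obtain ⟨ε, e0, e1, e2⟩ : ∃ ε : ℝ, 0 < ε ∧ ε ≤ N ^ 2 * r / 2 ∧ ε ≤ η :=
    ⟨min _ _, lt_min (by positivity) hη, min_le_left _ _, min_le_right _ _⟩
  obtain ⟨L, hL⟩ := (Real.tendsto_sum_range_one_div_nat_succ_atTop.eventually_ge_atTop
    (4 * n / ε)).exists
  obtain ⟨t, ht⟩ := exists_nat_ge ((2 * L + 1) / r)
  obtain ⟨t', ht'⟩ := exists_nat_ge (4 / κ)
  have h1 : t + L * L + 1 + t' ≤ 4 * N * (t + L * L + 1 + t') :=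
    Nat.le_mul_of_pos_left _ (by omega)
  obtain ⟨N', hN'⟩ : ∃ N', N' = 4 * N * (t + L * L + 1 + t') := ⟨_, rfl⟩
  rw [← hN'] at h1
  have h2 : 0 < N' := by omega
  have e : (N' : ℝ) ^ 2 * (ε / N' ^ 2) = ε := by field_simp
  refine ⟨N', ε / N' ^ 2, h2, by positivity, ⟨_, hN'⟩, by rwa [e], by rwa [e], ⟨L, ?_, by omega,
    ?_⟩, ?_⟩
  · rwa [e, ← div_le_iff₀' e0]
  · rw [← div_le_iff₀' hr]
    exact ht.trans (by exact_mod_cast (by omega))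
  · rw [← div_le_iff₀' hκ]
    exact ht'.trans (by exact_mod_cast (by omega))

/-- all the data of the construction -/
structure Good2 (N : ℕ → ℕ) (r κ e : ℕ → ℝ) : Prop extends Good N r where
  et : ∀ n, (N (n + 1) : ℝ) ^ 2 * r (n + 1) ≤ e n / 384
  st : ∀ n, Stage n (PP (N n)) (sq \ TT N r (n + 1)) (κ n) (e n)
  kN : ∀ n, 4 ≤ κ n * N (n + 1)
  op : ∀ n, IsOpen (sq \ TT N r n)
  pc : ∀ n, IsPreconnected (sq \ TT N r n)

abbrev St := {s : ℕ × ℝ × Set ℂ // 0 < s.1 ∧ 0 < s.2.1 ∧ (s.1 : ℝ) ^ 2 * s.2.1 ≤ 1 / 4 ∧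
  IsOpen (sq \ s.2.2) ∧ IsPreconnected (sq \ s.2.2)}

lemma ex_good2 {ε : ℝ} (hε : 0 < ε) : ∃ N r κ e, Good2 N r κ e ∧ (N 0 : ℝ) ^ 2 * r 0 ≤ ε := by
  obtain ⟨ρ, hρ0, hρ1, hρ2⟩ : ∃ ρ : ℝ, 0 < ρ ∧ ρ ≤ 1 / 4 ∧ ρ ≤ ε :=
    ⟨min _ _, lt_min (by norm_num) hε, min_le_left _ _, min_le_right _ _⟩
  have h : ∀ (n : ℕ) (s : St), ∃ (s' : St) (κ e : ℝ), Stage n (PP s.1.1) (sq \ s.1.2.2) κ e ∧
      4 * s.1.1 ∣ s'.1.1 ∧ (s'.1.1 : ℝ) ^ 2 * s'.1.2.1 ≤ s.1.1 ^ 2 * s.1.2.1 / 2 ∧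
      (s'.1.1 : ℝ) ^ 2 * s'.1.2.1 ≤ e / 384 ∧
      (∃ L : ℕ, 4 * n ≤ (s'.1.1 : ℝ) ^ 2 * s'.1.2.1 * ∑ i ∈ Finset.range L, (1 / (i + 1) : ℝ) ∧
        L * L ≤ s'.1.1 ∧ 2 * L + 1 ≤ s.1.2.1 * s'.1.1) ∧ 4 ≤ κ * s'.1.1 ∧
      s'.1.2.2 = s.1.2.2 ∪ newD s.1.2.2 s'.1.1 s'.1.2.1 := by
    rintro n ⟨⟨N, r, T⟩, h1, h2, h3, h4, h5⟩
    simp only at h1 h2 h3 h4 h5
    obtain ⟨κ, e, hs⟩ := ex_stage n (PP_fin N) h4 h5
      ((isBounded_Ioo _ _).reProdIm (isBounded_Ioo _ _) |>.subset sdiff_subset)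
    obtain ⟨N', r', a1, a2, a3, a4, a5, a6, a7⟩ := step' n h1 h2 (η := e / 384)
      (by have := hs.e0; positivity) hs.k0
    have a8 : (N' : ℝ) ^ 2 * r' ≤ 1 / 4 := by
      have : (0 : ℝ) < (N : ℝ) ^ 2 * r := by positivity
      linarith
    obtain ⟨b1, b2, -⟩ := nx h4 h5 a1 a2 a8
    exact ⟨⟨(N', r', T ∪ newD T N' r'), a1, a2, a8, b1, b2⟩, κ, e, hs, a3, a4, a5, a6, a7, rfl⟩
  choose f κ e a1 a2 a3 a4 a5 a6 a7 using h
  have i0 : 0 < 1 ∧ (0 : ℝ) < ρ ∧ ((1 : ℕ) : ℝ) ^ 2 * ρ ≤ 1 / 4 ∧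
      IsOpen (sq \ (∅ ∪ newD ∅ 1 ρ)) ∧ IsPreconnected (sq \ (∅ ∪ newD ∅ 1 ρ)) := by
    obtain ⟨b1, b2, -⟩ := nx (T := ∅) (by rw [sdiff_empty]; exact sq_open)
      (by rw [sdiff_empty]; exact sq_pre) (N := 1) one_pos (r := ρ) hρ0 (by simpa using hρ1)
    exact ⟨one_pos, hρ0, by simpa using hρ1, b1, b2⟩
  obtain ⟨s, s0, hs⟩ : ∃ s : ℕ → St, (s 0).1 = (1, ρ, ∅ ∪ newD ∅ 1 ρ) ∧
      ∀ n, s (n + 1) = f n (s n) :=
    ⟨fun n => Nat.rec ⟨(1, ρ, ∅ ∪ newD ∅ 1 ρ), i0⟩ (fun n s => f n s) n, rfl,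
      fun _ => rfl⟩
  have hT : ∀ n, TT (fun n => (s n).1.1) (fun n => (s n).1.2.1) (n + 1) = (s n).1.2.2 := by
    intro n
    induction n with
    | zero =>
      change TT _ _ 0 ∪ newD (TT _ _ 0) (s 0).1.1 (s 0).1.2.1 = _
      rw [s0]
      rfl
    | succ n ih =>
      change TT _ _ (n + 1) ∪ newD (TT _ _ (n + 1)) (s (n + 1)).1.1 (s (n + 1)).1.2.1 = _
      rw [ih, hs n, a7 n (s n)]
  refine ⟨fun n => (s n).1.1, fun n => (s n).1.2.1, fun n => κ n (s n), fun n => e n (s n),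
    ⟨⟨fun n => (s n).2.1, fun n => (s n).2.2.1, ?_, ?_, ?_, ?_⟩, ?_, ?_, ?_, ?_, ?_⟩, ?_⟩
  · simpa [s0] using hρ1
  · intro n; simp only [hs]; exact a2 n _
  · intro n; simp only [hs]; exact a3 n _
  · intro n; simp only [hs]; exact a5 n _
  · intro n; simp only [hs]; exact a4 n _
  · intro n; rw [hT]; exact a1 n _
  · intro n; simp only [hs]; exact a6 n _
  · intro n
    cases n with
    | zero => change IsOpen (sq \ ∅); rw [sdiff_empty]; exact sq_open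
    | succ n => rw [hT]; exact (s n).2.2.2.2.1
  · intro n
    cases n with
    | zero => change IsPreconnected (sq \ ∅); rw [sdiff_empty]; exact sq_pre
    | succ n => rw [hT]; exact (s n).2.2.2.2.2
  · simpa [s0] using hρ2

end Pool.Agent.KS6_2.RX
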