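import Pool.Agent.KS6_2.RX.G

set_option autoImplicit false
open Set Filter Topology Metric Complex
open scoped Real

namespace Pool.Agent.KS6_2.RX

variable {N : ℕ → ℕ} {r κ e : ℕ → ℝ}

/-- the points of the closed square outside the open discs of the levels `≤ n` -/
def Xn (N : ℕ → ℕ) (r : ℕ → ℝ) (n : ℕ) : Set ℂ :=
  {z | (z.re ∈ Icc (-1 : ℝ) 1 ∧ z.im ∈ Icc (-1 : ℝ) 1) ∧
    ∀ m ≤ n, ∀ q, Kept N r m q → r m ≤ ‖z - gp (N m) q‖}

lemma Good2.app (G : Good2 N r κ e) (n : ℕ) {f : ℂ → ℂ} (hf : f ∈ V (XX N r)) {B : ℝ}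
    (hB0 : 0 ≤ B) (hB : ∀ z ∈ XX N r, ‖f z‖ ≤ B) :
    ∃ g, DifferentiableOn ℂ g (Xn N r n) ∧
      ∀ z ∈ Xn N r n, (∀ m, n < m → ∃ k : ℤ, z.re * N m = k ∨ z.im * N m = k) →
        z ∈ XX N r ∧ ‖g z - f z‖ ≤ e n * B := by
  have hQ : ∀ z ∈ Xn N r n, z.re ∈ Icc (-1 : ℝ) 1 ∧ z.im ∈ Icc (-1 : ℝ) 1 := fun z hz => hz.1
  refine Exists.imp (fun g hg => ?_) (approx (W := Xn N r n)
    (ι := {p : Σ _ : ℕ, ℤ × ℤ // Kept N r (n + 1 + p.1) p.2 ∧ p.2 ∈ box (N (n + 1 + p.1))})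
    (a := fun p => gp (N (n + 1 + p.1.1)) p.1.2) (ρ := fun p => r (n + 1 + p.1.1))
    (η := e n) (fun _ => G.r0 _) ?_ ?_ ?_ hf hB0 hB)
  · obtain ⟨g1, g2⟩ := hg
    refine ⟨g1, fun z hz hg => ?_⟩
    have a1 : ∀ m, n < m → ∀ q, 1 / (2 * N m) ≤ ‖z - gp (N m) q‖ := by
      intro m hm q
      obtain ⟨k, hk | hk⟩ := hg m hm
      · exact (sep (G.N0 m) hk _).trans (re_le z _ q)
      · exact (sep (G.N0 m) hk _).trans (im_le z _ q)
    have a2 : ∀ m, n < m → ∀ q, 2 * r m ≤ ‖z - gp (N m) q‖ := fun m hm q =>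
      (G.rN' m).trans (a1 m hm q)
    refine ⟨mem_XX.2 ⟨hQ z hz, fun m q hk => ?_⟩, g2 z (fun p => ?_) fun A => ?_⟩
    · rcases le_or_gt m n with h | h
      · exact hz.2 m h q hk
      · linarith [a2 m h q, G.r0 m]
    · linarith [a2 (n + 1 + p.1.1) (by omega) p.1.2, G.r0 (n + 1 + p.1.1)]
    · obtain ⟨K, hK⟩ := (A.image fun p => p.1.1).exists_nat_subset_range
      calc _ ≤ ∑ p ∈ A.map (Function.Embedding.subtype _),
            2 * r (n + 1 + p.1) * (1 / ‖z - gp (N (n + 1 + p.1)) p.2‖) := by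
            rw [Finset.sum_map]
            refine Finset.sum_le_sum fun p _ => ?_
            have b1 := a2 (n + 1 + p.1.1) (by omega) p.1.2
            have b2 := G.r0 (n + 1 + p.1.1)
            rw [Function.Embedding.subtype_apply, mul_one_div,
              div_le_div_iff₀ (by linarith) (by linarith)]
            nlinarith
        _ ≤ ∑ p ∈ (Finset.range K).sigma fun k => box (N (n + 1 + k)),
            2 * r (n + 1 + p.1) * (1 / ‖z - gp (N (n + 1 + p.1)) p.2‖) := by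
            refine Finset.sum_le_sum_of_subset_of_nonneg (fun p hp => ?_) fun p _ _ => ?_
            · obtain ⟨p, a, rfl⟩ := Finset.mem_map.1 hp
              exact Finset.mem_sigma.2 ⟨hK (Finset.mem_image_of_mem _ a), p.2.2⟩
            · have := G.r0 (n + 1 + p.1); positivity
        _ ≤ ∑ k ∈ Finset.range K, 192 * (N (n + 1) ^ 2 * r (n + 1)) * (1 / 2 : ℝ) ^ k := by
            rw [Finset.sum_sigma]
            refine Finset.sum_le_sum fun k _ => ?_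
            have b1 := grid_sum (G.N0 (n + 1 + k)) (hQ z hz).1 (hQ z hz).2 (a1 _ (by omega))
            have b2 := mul_le_mul_of_nonneg_left b1 (G.r0 (n + 1 + k)).le
            simp only [← Finset.mul_sum, box]
            linarith [G.eps (n + 1) k]
        _ ≤ _ := by
            rw [← Finset.mul_sum]
            have b1 := mul_le_mul_of_nonneg_left (sum_geometric_two_le K)
              (show (0 : ℝ) ≤ N (n + 1) ^ 2 * r (n + 1) by have := G.r0 (n + 1); positivity)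
            linarith [G.et n]
  · rintro ⟨⟨k, q⟩, a, b⟩ z hz
    have c1 : ‖z - gp (N (n + 1 + k)) q‖ = r (n + 1 + k) := mem_sphere_iff_norm.1 hz
    have c2 := c1.le.trans (G.rN _)
    have c3 := Finset.mem_product.1 b
    refine mem_XX.2 ⟨⟨Ioo_subset_Icc_self (in1s (G.N0 _) c3.1 ((re_le z _ q).trans c2)),
      Ioo_subset_Icc_self (in1s (G.N0 _) c3.2 ((im_le z _ q).trans c2))⟩, fun m q' h => ?_⟩
    by_cases e : n + 1 + k ≠ m ∨ q ≠ q'
    · have := disjoint_left.1 (G.disj a h e) (sphere_subset_closedBall hz)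
      rw [mem_closedBall_iff_norm] at this
      exact (not_le.1 this).le
    · push Not at e
      rw [← e.1, ← e.2, c1]
  · rintro ⟨⟨k, q⟩, a, b⟩ ⟨⟨k', q'⟩, a', b'⟩ hne
    refine G.disj a a' ?_
    by_contra e
    push Not at e
    obtain ⟨e1, rfl⟩ := e
    obtain rfl : k = k' := by simpa using e1
    exact hne rfl
  · intro c hc hX
    rw [mem_XX] at hX
    push Not at hX
    obtain ⟨m, q, a, b⟩ := hX (hQ c hc)
    have hm : n < m := lt_of_not_ge fun h => (hc.2 m h q a).not_gt b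
    obtain ⟨k, rfl⟩ := Nat.exists_eq_add_of_le (Nat.succ_le_of_lt hm)
    have c2 := b.le.trans (G.rN _)
    exact ⟨⟨⟨k, q⟩, a, Finset.mem_product.2 ⟨in2 (G.N0 _) (hQ c hc).1 ((re_le c _ q).trans c2),
      in2 (G.N0 _) (hQ c hc).2 ((im_le c _ q).trans c2)⟩⟩, mem_ball_iff_norm.2 b⟩

lemma sub_Xn (n : ℕ) : sq \ TT N r (n + 1) ⊆ Xn N r n := by
  rintro z ⟨hz, hT⟩
  refine ⟨⟨Ioo_subset_Icc_self hz.1, Ioo_subset_Icc_self hz.2⟩, fun m hm q hq => ?_⟩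
  by_contra hcon
  push Not at hcon
  exact hT (mem_TT.2 ⟨m, Nat.lt_succ_of_le hm, q, hq, mem_closedBall_iff_norm.2 hcon.le⟩)

lemma Good2.XX_cl (G : Good2 N r κ e) (n : ℕ) : XX N r ⊆ closure (sq \ TT N r n) := by
  induction n with
  | zero =>
    intro z hz
    change z ∈ closure (sq \ ∅)
    rw [sdiff_empty, sq, closure_reProdIm, closure_Ioo (by norm_num)]
    exact (mem_XX.1 hz).1
  | succ n ih =>
    intro z hz
    exact (nx (G.op n) (G.pc n) (G.N0 n) (G.r0 n) (G.e1 n)).2.2 z (ih hz)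
      fun q hq => (mem_XX.1 hz).2 n q hq

lemma PP_int {M M' : ℕ} (hM : 0 < M) (h : M ∣ M') {w : ℂ} (hw : w ∈ PP M) :
    (∃ k : ℤ, w.re * M' = k) ∧ ∃ k : ℤ, w.im * M' = k := by
  obtain ⟨c, rfl⟩ := h
  obtain ⟨⟨a, b⟩, -, rfl⟩ := hw
  have h0 : (M : ℝ) ≠ 0 := by positivity
  refine ⟨⟨a * c, ?_⟩, ⟨b * c, ?_⟩⟩ <;> push_cast <;> field_simp

lemma PP_mono {M M' : ℕ} (hM : 0 < M) (hM' : 0 < M') (h : M ∣ M') : PP M ⊆ PP M' := by
  obtain ⟨c, rfl⟩ := h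
  have hc : 0 < c := Nat.pos_of_mul_pos_left hM'
  rintro _ ⟨⟨a, b⟩, ⟨ha, hb⟩, rfl⟩
  have h0 : (M : ℝ) ≠ 0 := by positivity
  have hc0 : (c : ℝ) ≠ 0 := by positivity
  have hcz : (0 : ℤ) < c := by exact_mod_cast hc
  simp only [mem_Icc] at ha hb
  refine ⟨(a * c, b * c), ⟨?_, ?_⟩, ?_⟩
  · simp only [mem_Icc]; push_cast
    constructor <;> nlinarith [ha.1, ha.2]
  · simp only [mem_Icc]; push_cast
    constructor <;> nlinarith [hb.1, hb.2]
  · apply Complex.ext <;> simp <;> field_simp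

lemma Good2.dvd' (G : Good2 N r κ e) {k m : ℕ} (h : k ≤ m) : N k ∣ N m := by
  rcases h.eq_or_lt with rfl | h
  · exact dvd_rfl
  · exact (Dvd.intro_left 4 rfl).trans (G.dvd h)

lemma Good2.avoid (G : Good2 N r κ e) {k : ℕ} {w : ℂ} (hw : w ∈ PP (N k)) (h : w ∉ TT N r k)
    (m : ℕ) : w ∉ TT N r m := by
  intro hm
  obtain ⟨m', h1, q, h2, h3⟩ := mem_TT.1 hm
  rcases lt_or_ge m' k with hk | hk
  · exact h (mem_TT.2 ⟨m', hk, q, h2, h3⟩)
  · obtain ⟨⟨j, hj⟩, -⟩ := PP_int (G.N0 k) (G.dvd' hk) hw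
    have a1 := (sep (G.N0 m') hj q.1).trans (re_le w _ q)
    have a2 := mem_closedBall_iff_norm.1 h3
    linarith [G.rN' m', G.r0 m']

lemma Good2.memX (_G : Good2 N r κ e) {w : ℂ} (hw : w ∈ sq) (h : ∀ m, w ∉ TT N r m) :
    w ∈ XX N r := by
  refine mem_XX.2 ⟨⟨Ioo_subset_Icc_self hw.1, Ioo_subset_Icc_self hw.2⟩, fun m q hq => ?_⟩
  by_contra hcon
  push Not at hcon
  exact h (m + 1) (mem_TT.2 ⟨m, m.lt_succ_self, q, hq, mem_closedBall_iff_norm.2 hcon.le⟩)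

/-- the mesh points are dense -/
lemma Good2.dens (G : Good2 N r κ e) {z : ℂ} (hz : z ∈ XX N r) {δ : ℝ} (hδ : 0 < δ) :
    ∃ k, ∃ w ∈ PP (N k), w ∈ sq ∧ (∀ m, w ∉ TT N r m) ∧ dist z w < δ := by
  obtain ⟨n, hn⟩ := exists_nat_one_div_lt (show 0 < δ / 2 by positivity)
  obtain ⟨z', h1, h2⟩ := (G.st n).near z (G.XX_cl (n + 1) hz)
  have hM := G.N0 (n + 1)
  have hM0 : (0 : ℝ) < N (n + 1) := by exact_mod_cast hM
  have hk0 := (G.st n).k0
  have hk1 := (G.st n).k1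
  have hkN := G.kN n
  have hz' : z' ∈ sq := (h2 (mem_closedBall_self hk0.le)).1
  obtain ⟨w, hw⟩ : ∃ w : ℂ, w = ⟨(⌊z'.re * N (n + 1)⌋ : ℤ) / N (n + 1),
    (⌊z'.im * N (n + 1)⌋ : ℤ) / N (n + 1)⟩ := ⟨_, rfl⟩
  have b : ∀ t : ℝ, |t - (⌊t * N (n + 1)⌋ : ℤ) / N (n + 1)| ≤ 1 / N (n + 1) := by
    intro t
    rw [abs_le]
    have c1 := Int.floor_le (t * N (n + 1))
    have c2 := (Int.lt_floor_add_one (t * N (n + 1))).le
    have c3 : ((⌊t * N (n + 1)⌋ : ℤ) : ℝ) / N (n + 1) ≤ t := by rw [div_le_iff₀ hM0]; exact c1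
    have c4 : t ≤ (((⌊t * N (n + 1)⌋ : ℤ) : ℝ) + 1) / N (n + 1) := by
      rw [le_div_iff₀ hM0]; exact c2
    rw [add_div] at c4
    have c5 : 0 < (1 : ℝ) / N (n + 1) := by positivity
    constructor <;> linarith
  have hd : dist z' w ≤ κ n / 2 := by
    rw [dist_eq_norm]
    refine (norm_le_abs_re_add_abs_im _).trans ?_
    rw [hw]
    simp only [sub_re, sub_im]
    have c : (1 : ℝ) / N (n + 1) ≤ κ n / 4 := by
      rw [div_le_iff₀ hM0]; linarith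
    linarith [b z'.re, b z'.im]
  have hwS : w ∈ sq \ TT N r (n + 1) := h2 (by
    rw [mem_closedBall, dist_comm]; linarith)
  have hwP : w ∈ PP (N (n + 1)) := by
    refine ⟨(⌊z'.re * N (n + 1)⌋, ⌊z'.im * N (n + 1)⌋), ⟨?_, ?_⟩, hw.symm⟩
    · have a1 : (-(N (n + 1)) : ℤ) ≤ ⌊z'.re * N (n + 1)⌋ := Int.le_floor.2 (by
        push_cast; nlinarith [hz'.1.1])
      have a2 : ⌊z'.re * N (n + 1)⌋ ≤ N (n + 1) := Int.floor_le_iff.2 (by
        push_cast; nlinarith [hz'.1.2])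
      exact ⟨a1, a2⟩
    · have a1 : (-(N (n + 1)) : ℤ) ≤ ⌊z'.im * N (n + 1)⌋ := Int.le_floor.2 (by
        push_cast; nlinarith [hz'.2.1])
      have a2 : ⌊z'.im * N (n + 1)⌋ ≤ N (n + 1) := Int.floor_le_iff.2 (by
        push_cast; nlinarith [hz'.2.2])
      exact ⟨a1, a2⟩
  refine ⟨n + 1, w, hwP, hwS.1, G.avoid hwP hwS.2, ?_⟩
  have := dist_triangle z z' w
  linarith

/-- the maximum principle on the mesh -/
lemma Good2.mesh (G : Good2 N r κ e) (n : ℕ) {g : ℂ → ℂ} {S : Set ℂ}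
    (hg : DifferentiableOn ℂ g S) {z : ℂ} (hz : closedBall z (κ n / 2) ⊆ S) {C : ℝ}
    (h : ∀ y ∈ closedBall z (κ n / 2),
      (∀ m, n < m → ∃ k : ℤ, y.re * N m = k ∨ y.im * N m = k) → ‖g y‖ ≤ C) : ‖g z‖ ≤ C := by
  have hM := G.N0 (n + 1)
  have hM0 : (0 : ℝ) < N (n + 1) := by exact_mod_cast hM
  have hkN := G.kN n
  obtain ⟨M, hMe⟩ : ∃ M : ℝ, M = N (n + 1) := ⟨_, rfl⟩
  obtain ⟨a, ha⟩ : ∃ a : ℤ, a = ⌊z.re * N (n + 1)⌋ := ⟨_, rfl⟩
  obtain ⟨b, hb⟩ : ∃ b : ℤ, b = ⌊z.im * N (n + 1)⌋ := ⟨_, rfl⟩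
  have f1 := Int.floor_le (z.re * N (n + 1))
  have f2 := Int.lt_floor_add_one (z.re * N (n + 1))
  have f3 := Int.floor_le (z.im * N (n + 1))
  have f4 := Int.lt_floor_add_one (z.im * N (n + 1))
  rw [← ha] at f1 f2
  rw [← hb] at f3 f4
  rw [← hMe] at f1 f2 f3 f4 hM0 hkN
  have g1 : (a : ℝ) / M ≤ z.re := by rw [div_le_iff₀ hM0]; exact f1
  have g2 : z.re ≤ ((a : ℝ) + 1) / M := by rw [le_div_iff₀ hM0]; exact f2.le
  have g3 : (b : ℝ) / M ≤ z.im := by rw [div_le_iff₀ hM0]; exact f3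
  have g4 : z.im ≤ ((b : ℝ) + 1) / M := by rw [le_div_iff₀ hM0]; exact f4.le
  have lt1 : (a : ℝ) / M < ((a : ℝ) + 1) / M := by gcongr; linarith
  have lt2 : (b : ℝ) / M < ((b : ℝ) + 1) / M := by gcongr; linarith
  have hw : (1 : ℝ) / M ≤ κ n / 4 := by rw [div_le_iff₀ hM0]; linarith
  have hcl : closure (Ioo ((a : ℝ) / M) (((a : ℝ) + 1) / M) ×ℂ Ioo ((b : ℝ) / M) (((b : ℝ) + 1) / M))
      = Icc ((a : ℝ) / M) (((a : ℝ) + 1) / M) ×ℂ Icc ((b : ℝ) / M) (((b : ℝ) + 1) / M) := by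
    rw [closure_reProdIm, closure_Ioo lt1.ne, closure_Ioo lt2.ne]
  have hsub : Icc ((a : ℝ) / M) (((a : ℝ) + 1) / M) ×ℂ Icc ((b : ℝ) / M) (((b : ℝ) + 1) / M) ⊆
      closedBall z (κ n / 2) := by
    intro y hy
    rw [mem_closedBall_iff_norm]
    refine (norm_le_abs_re_add_abs_im _).trans ?_
    rw [add_div] at g2 g4
    have y1 := hy.1.1
    have y2 := hy.1.2
    have y3 := hy.2.1
    have y4 := hy.2.2
    rw [add_div] at y2 y4
    have c1 : |(y - z).re| ≤ 1 / M := by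
      rw [sub_re, abs_le]; constructor <;> linarith
    have c2 : |(y - z).im| ≤ 1 / M := by
      rw [sub_im, abs_le]; constructor <;> linarith
    linarith
  refine norm_le_of_forall_mem_frontier_norm_le (f := g)
    (U := Ioo ((a : ℝ) / M) (((a : ℝ) + 1) / M) ×ℂ Ioo ((b : ℝ) / M) (((b : ℝ) + 1) / M))
    ((isBounded_Ioo _ _).reProdIm (isBounded_Ioo _ _))
    (DifferentiableOn.diffContOnCl (by rw [hcl]; exact hg.mono (hsub.trans hz))) ?_
    (by rw [hcl]; exact ⟨⟨g1, g2⟩, ⟨g3, g4⟩⟩)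
  intro y hy
  have hy1 := hsub (hcl ▸ frontier_subset_closure hy)
  refine h y hy1 fun m hm => ?_
  obtain ⟨c, hc⟩ := G.dvd' (Nat.succ_le_of_lt hm)
  have hcM : (N m : ℝ) = M * c := by rw [hc, hMe]; push_cast; rfl
  rw [frontier_reProdIm, frontier_Ioo lt1, frontier_Ioo lt2] at hy
  have key : ∀ (t : ℝ) (a : ℤ), t = (a : ℝ) / M ∨ t = ((a : ℝ) + 1) / M →
      ∃ k : ℤ, t * N m = k := by
    rintro t a (rfl | rfl)
    · exact ⟨a * c, by rw [hcM]; push_cast; field_simp⟩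
    · exact ⟨(a + 1) * c, by rw [hcM]; push_cast; field_simp⟩
  rcases hy with hy | hy
  · obtain ⟨k, hk⟩ := key y.im b hy.2
    exact ⟨k, Or.inr hk⟩
  · obtain ⟨k, hk⟩ := key y.re a hy.1
    exact ⟨k, Or.inl hk⟩

end Pool.Agent.KS6_2.RX
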