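import Pool.Agent.KS6_2.RX.T

set_option autoImplicit false
open Set Filter Topology Metric Complex
open scoped Real

namespace Pool.Agent.KS6_2.RX

/-- the constants of one stage of the construction -/
structure Stage (n : ℕ) (P S : Set ℂ) (κ e : ℝ) : Prop where
  k0 : 0 < κ
  e0 : 0 < e
  k1 : κ ≤ 1 / (n + 1)
  e1 : (n + 2) * e ≤ 1 / (n + 1)
  pt : ∀ a ∈ P ∩ S, closedBall a κ ⊆ S
  near : ∀ z ∈ closure S, ∃ z', dist z z' < 1 / (n + 1) ∧ closedBall z' κ ⊆ S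
  unq : ∀ a ∈ P ∩ S, ∀ b ∈ P ∩ S, ∀ g : ℂ → ℂ, DifferentiableOn ℂ g S →
    (∀ z, closedBall z κ ⊆ S → ‖g z‖ ≤ 2 * (n + 1)) →
    (∀ z ∈ ball a (κ / 2), ‖g z‖ ≤ (n + 2) * e) → ‖g b‖ ≤ 1 / (n + 1)

lemma ev_le {c : ℝ} (hc : 0 < c) : ∀ᶠ κ in 𝓝[>] (0 : ℝ), κ ≤ c :=
  Filter.mem_of_superset (Ioc_mem_nhdsGT hc) fun _ h => h.2

lemma ex_stage (n : ℕ) {P : Set ℂ} (hP : P.Finite) {S : Set ℂ} (ho : IsOpen S)
    (hc : IsPreconnected S) (hb : Bornology.IsBounded S) : ∃ κ e, Stage n P S κ e := by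
  obtain ⟨F, hF⟩ : ∃ F : Finset ℂ, (F : Set ℂ) = P ∩ S :=
    (hP.subset inter_subset_left).exists_finset_coe
  have hFm : ∀ a, a ∈ F ↔ a ∈ P ∩ S := fun a => by rw [← hF]; rfl
  have h1 : ∀ a b : ℂ, ∃ (Ω : Set ℂ) (κ : ℝ), 0 < κ ∧ (a ∈ S → b ∈ S → IsOpen Ω ∧
      IsPreconnected Ω ∧ ball a κ ⊆ Ω ∧ b ∈ Ω ∧ ∀ z ∈ Ω, closedBall z κ ⊆ S) := by
    intro a b
    by_cases h : a ∈ S ∧ b ∈ S
    · obtain ⟨Ω, κ, k, h'⟩ := inner_conn ho hc h.1 h.2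
      exact ⟨Ω, κ, k, fun _ _ => h'⟩
    · exact ⟨∅, 1, one_pos, fun x y => absurd ⟨x, y⟩ h⟩
  choose Ω κ' k' hΩ using h1
  obtain ⟨t, ht1, ht2, ht3⟩ := (hb.isCompact_closure).finite_cover_balls
    (show (0 : ℝ) < 1 / (2 * (n + 1)) by positivity)
  have h2 : ∀ x : ℂ, ∃ (z' : ℂ) (κ : ℝ), 0 < κ ∧ (x ∈ closure S →
      dist x z' < 1 / (2 * (n + 1)) ∧ closedBall z' κ ⊆ S) := by
    intro x
    by_cases h : x ∈ closure S
    · obtain ⟨z', hz', hd⟩ := Metric.mem_closure_iff.1 h (1 / (2 * (n + 1))) (by positivity)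
      obtain ⟨κ, hk, h'⟩ := Metric.nhds_basis_closedBall.mem_iff.1 (ho.mem_nhds hz')
      exact ⟨z', κ, hk, fun _ => ⟨hd, h'⟩⟩
    · exact ⟨0, 1, one_pos, fun h' => absurd h' h⟩
  choose z' κ'' k'' hz' using h2
  obtain ⟨t', ht'⟩ := ht2.exists_finset_coe
  have hev : ∀ᶠ κ : ℝ in 𝓝[>] (0 : ℝ), 0 < κ ∧ κ ≤ 1 / ((n : ℝ) + 1) ∧ (∀ a ∈ F, ∀ b ∈ F, κ ≤ κ' a b) ∧
      ∀ x ∈ t', κ ≤ κ'' x := by
    refine (eventually_mem_nhdsWithin.mono fun _ h => h).and ((ev_le (by positivity)).and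
      (((eventually_all_finset _).2 fun a _ => (eventually_all_finset _).2 fun b _ =>
        ev_le (k' a b)).and ((eventually_all_finset _).2 fun x _ => ev_le (k'' x))))
  obtain ⟨κ, hk0, hk1, hk2, hk3⟩ := hev.exists
  have h3 : ∀ a b : ℂ, ∃ e > 0, a ∈ F → b ∈ F → ∀ g : ℂ → ℂ, DifferentiableOn ℂ g S →
      (∀ z, closedBall z κ ⊆ S → ‖g z‖ ≤ 2 * (n + 1)) →
      (∀ z ∈ ball a (κ / 2), ‖g z‖ ≤ e) → ‖g b‖ ≤ 1 / (n + 1) := by
    intro a b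
    by_contra hcon
    push Not at hcon
    obtain ⟨haF, hbF⟩ : a ∈ F ∧ b ∈ F := ⟨(hcon 1 one_pos).1, (hcon 1 one_pos).2.1⟩
    have hcon' := fun (j : ℕ) => (hcon (1 / ((j : ℝ) + 1)) (by positivity)).2.2
    choose g hg using hcon'
    obtain ⟨o1, o2, o3, o4, o5⟩ := hΩ a b ((hFm a).1 haF).2 ((hFm b).1 hbF).2
    have hkk := hk2 a haF b hbF
    have hsub : ∀ z ∈ Ω a b, closedBall z κ ⊆ S := fun z hz =>
      (closedBall_subset_closedBall hkk).trans (o5 z hz)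
    have hΩS : Ω a b ⊆ S := fun z hz => hsub z hz (mem_closedBall_self hk0.le)
    have := prop_small o1 o2 (g := g) (M := 2 * (n + 1))
      (by positivity) (fun j => (hg j).1.mono hΩS)
      (fun j z hz => (hg j).2.1 z (hsub z hz)) (u := a) (s := κ / 2)
      (by positivity) ((ball_subset_ball (by linarith)).trans o3) (fun ε hε => ?_) o4
      (ε := 1 / ((n : ℝ) + 1)) (by positivity)
    · obtain ⟨j, hj⟩ := this.exists
      exact absurd hj (not_le.2 (hg j).2.2.2)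
    · filter_upwards [tendsto_one_div_add_atTop_nhds_zero_nat.eventually_le_const hε] with j hj z hz
      exact ((hg j).2.2.1 z hz).trans hj
  choose e' e0' he' using h3
  have hev2 : ∀ᶠ e : ℝ in 𝓝[>] (0 : ℝ), 0 < e ∧ e ≤ 1 / ((n : ℝ) + 1) / (n + 2) ∧
      ∀ a ∈ F, ∀ b ∈ F, e ≤ e' a b / (n + 2) := by
    refine (eventually_mem_nhdsWithin.mono fun _ h => h).and ((ev_le (by positivity)).and
      ((eventually_all_finset _).2 fun a _ => (eventually_all_finset _).2 fun b _ =>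
        ev_le (by have := e0' a b; positivity)))
  obtain ⟨e, he0, he1, he2⟩ := hev2.exists
  have hn2 : (0 : ℝ) < n + 2 := by positivity
  refine ⟨κ, e, hk0, he0, hk1, by rwa [le_div_iff₀' hn2] at he1, ?_, ?_, ?_⟩
  · intro a ha
    have haF := (hFm a).2 ha
    obtain ⟨o1, o2, o3, o4, o5⟩ := hΩ a a ha.2 ha.2
    exact (closedBall_subset_closedBall (hk2 a haF a haF)).trans (o5 a o4)
  · intro z hz
    obtain ⟨x, hx, hzx⟩ := mem_iUnion₂.1 (ht3 hz)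
    have hxt : x ∈ t' := by rw [← Finset.mem_coe, ht']; exact hx
    obtain ⟨a1, a2⟩ := hz' x (ht1 hx)
    refine ⟨z' x, ?_, (closedBall_subset_closedBall (hk3 x hxt)).trans a2⟩
    have := dist_triangle z x (z' x)
    rw [mem_ball] at hzx
    have e1 : (1 : ℝ) / (n + 1) = 1 / (2 * (n + 1)) + 1 / (2 * (n + 1)) := by field_simp; norm_num
    linarith
  · intro a ha b hb' g hg1 hg2 hg3
    refine he' a b ((hFm a).2 ha) ((hFm b).2 hb') g hg1 hg2 fun z hz => (hg3 z hz).trans ?_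
    have := he2 a ((hFm a).2 ha) b ((hFm b).2 hb')
    rwa [le_div_iff₀' hn2] at this

end Pool.Agent.KS6_2.RX
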