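import Mathlib

set_option autoImplicit false
open Set Filter Topology Metric Complex
open scoped Real

namespace Pool.Agent.KS6_2.RX

/-- annuli are connected -/
lemma annulus_pre (c : ℂ) {ρ R : ℝ} (h0 : 0 ≤ ρ) : IsPreconnected (ball c R \ closedBall c ρ) := by
  have e : ball c R \ closedBall c ρ =
      (fun p : ℝ × ℝ => c + p.1 * exp (p.2 * I)) '' (Ioo ρ R ×ˢ univ) := by
    ext z
    constructor
    · rintro ⟨h1, h2⟩
      rw [mem_ball_iff_norm] at h1
      rw [mem_closedBall_iff_norm, not_le] at h2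
      refine ⟨(‖z - c‖, arg (z - c)), ⟨⟨h2, h1⟩, mem_univ _⟩, ?_⟩
      simp only [norm_mul_exp_arg_mul_I]
      ring
    · rintro ⟨⟨s, t⟩, ⟨⟨h1, h2⟩, -⟩, rfl⟩
      have e1 : ‖c + s * exp (t * I) - c‖ = s := by
        rw [add_sub_cancel_left, norm_mul, norm_exp_ofReal_mul_I, mul_one, norm_real,
          Real.norm_of_nonneg (h0.trans h1.le)]
      refine ⟨mem_ball_iff_norm.2 (by rw [e1]; exact h2), fun h => ?_⟩
      rw [mem_closedBall_iff_norm, e1] at h
      exact absurd h1 (not_lt.2 h)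
  rw [e]
  exact (isPreconnected_Ioo.prod isPreconnected_univ).image _ (by fun_prop)

lemma conn_aux {S A D B u v : Set ℂ} (hS : IsPreconnected S) (hB : IsOpen B)
    (hSD : IsOpen (S \ D)) (hDB : D ⊆ B) (hA : B \ D = A) (hu : IsOpen u)
    (hv : IsOpen v) (h1 : S \ D ⊆ u ∪ v) (h2 : (S \ D) ∩ (u ∩ v) = ∅) (h3 : A ⊆ u) :
    S \ D ⊆ u ∨ S \ D ⊆ v := by
  have key := isPreconnected_iff_subset_of_disjoint.1 hS ((u ∩ (S \ D)) ∪ B) (v ∩ (S \ D))
    ((hu.inter hSD).union hB) (hv.inter hSD) (fun z hz => ?_) ?_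
  · rcases key with key | key
    · left
      intro z hz
      rcases key hz.1 with h | h
      · exact h.1
      · exact h3 (hA ▸ ⟨h, hz.2⟩)
    · right
      exact fun z hz => (key hz.1).1
  · by_cases hzD : z ∈ D
    · exact Or.inl (Or.inr (hDB hzD))
    · rcases h1 ⟨hz, hzD⟩ with h | h
      · exact Or.inl (Or.inl ⟨h, hz, hzD⟩)
      · exact Or.inr ⟨h, hz, hzD⟩
  · rw [eq_empty_iff_forall_notMem] at h2 ⊢
    rintro z ⟨hz, h4 | h4, h5⟩
    · exact h2 z ⟨h5.2, h4.1, h5.1⟩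
    · exact h2 z ⟨h5.2, h3 (hA ▸ ⟨h4, h5.2.2⟩), h5.1⟩

/-- removing a closed disc from a connected open set -/
lemma conn_step {S : Set ℂ} (hS : IsPreconnected S) (ho : IsOpen S) {c : ℂ} {ρ : ℝ} (h0 : 0 ≤ ρ)
    (h : closedBall c ρ ⊆ S) : IsPreconnected (S \ closedBall c ρ) := by
  obtain ⟨δ, d0, hδ⟩ := (isCompact_closedBall c ρ).exists_cthickening_subset_open ho h
  rw [cthickening_closedBall d0.le h0] at hδ
  have hSD : IsOpen (S \ closedBall c ρ) := ho.sdiff isClosed_closedBall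
  have hDB : closedBall c ρ ⊆ ball c (ρ + δ) := closedBall_subset_ball (by linarith)
  have hA : ball c (ρ + δ) \ closedBall c ρ ⊆ S \ closedBall c ρ := fun z hz =>
    ⟨hδ (ball_subset_closedBall (by simpa [add_comm] using hz.1)), hz.2⟩
  rw [isPreconnected_iff_subset_of_disjoint]
  intro u v hu hv h1 h2
  rcases isPreconnected_iff_subset_of_disjoint.1 (annulus_pre c (R := ρ + δ) h0) u v hu hv
    (hA.trans h1) (by
      rw [eq_empty_iff_forall_notMem] at h2 ⊢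
      exact fun z hz => h2 z ⟨hA hz.1, hz.2⟩) with h3 | h3
  · exact conn_aux hS isOpen_ball hSD hDB rfl hu hv h1 h2 h3
  · exact (conn_aux hS isOpen_ball hSD hDB rfl hv hu (by rwa [union_comm]) (by rwa [inter_comm v])
      h3).symm

lemma conn_fin {S : Set ℂ} (hS : IsPreconnected S) (ho : IsOpen S) {ι : Type*} (F : Finset ι)
    (c : ι → ℂ) {ρ : ℝ} (h0 : 0 ≤ ρ) (h : ∀ i ∈ F, closedBall (c i) ρ ⊆ S)
    (hd : ∀ i ∈ F, ∀ j ∈ F, i ≠ j → Disjoint (closedBall (c i) ρ) (closedBall (c j) ρ)) :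
    IsOpen (S \ ⋃ i ∈ F, closedBall (c i) ρ) ∧
      IsPreconnected (S \ ⋃ i ∈ F, closedBall (c i) ρ) := by
  classical
  induction F using Finset.induction_on with
  | empty => simpa using ⟨ho, hS⟩
  | insert j F hj ih =>
    obtain ⟨i1, i2⟩ := ih (fun i hi => h i (Finset.mem_insert_of_mem hi)) fun i hi k hk =>
      hd i (Finset.mem_insert_of_mem hi) k (Finset.mem_insert_of_mem hk)
    have e : (S \ ⋃ i ∈ insert j F, closedBall (c i) ρ) =
        (S \ ⋃ i ∈ F, closedBall (c i) ρ) \ closedBall (c j) ρ := by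
      rw [Finset.set_biUnion_insert, sdiff_sdiff, union_comm]
    rw [e]
    refine ⟨i1.sdiff isClosed_closedBall, conn_step i2 i1 h0 fun z hz =>
      ⟨h j (Finset.mem_insert_self _ _) hz, ?_⟩⟩
    rw [mem_iUnion₂]
    rintro ⟨i, hi, hz'⟩
    exact disjoint_left.1 (hd j (Finset.mem_insert_self _ _) i (Finset.mem_insert_of_mem hi)
      (by rintro rfl; exact hj hi)) hz hz'

/-- three circles -/
lemma three {w : ℂ} {t R M : ℝ} (ht : 0 < t) (hR : 0 < R) (hM : 0 ≤ M) {ε : ℝ} (hε : 0 < ε) :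
    ∃ δ > 0, ∀ g : ℂ → ℂ, DifferentiableOn ℂ g (ball w (3 * R)) →
      (∀ z ∈ ball w (3 * R), ‖g z‖ ≤ M) → (∀ z ∈ ball w t, ‖g z‖ ≤ δ) →
        ∀ z ∈ ball w (2 * R), ‖g z‖ ≤ ε := by
  obtain ⟨m, hm⟩ := exists_pow_lt_of_lt_one (show (0 : ℝ) < ε / (M + 1) by positivity)
    (show (4 / 5 : ℝ) < 1 by norm_num)
  rw [lt_div_iff₀ (by positivity)] at hm
  obtain ⟨s, hs⟩ : ∃ s, s = min (t / 2) R := ⟨_, rfl⟩
  have s0 : 0 < s := by rw [hs]; positivity
  have s1 : s < t := by rw [hs]; exact (min_le_left _ _).trans_lt (by linarith)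
  have s2 : s ≤ R := by rw [hs]; exact min_le_right _ _
  refine ⟨min ε (ε * (s / (2 * R)) ^ m), by positivity, fun g hg h1 h2 z hz => ?_⟩
  rw [mem_ball_iff_norm] at hz
  by_cases hzs : ‖z - w‖ ≤ s
  · exact (h2 z (mem_ball_iff_norm.2 (hzs.trans_lt s1))).trans (min_le_left _ _)
  push Not at hzs
  have hz0 : z - w ≠ 0 := norm_pos_iff.1 (s0.trans hzs)
  obtain ⟨C, hC⟩ : ∃ C, C = ε / (2 * R) ^ m := ⟨_, rfl⟩
  have hC0 : 0 < C := by rw [hC]; positivity
  have key := norm_le_of_forall_mem_frontier_norm_le (f := fun z => g z / (z - w) ^ m)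
    (U := ball w (5 / 2 * R) \ closedBall w s) (C := C) (z := z)
    (isBounded_ball.subset sdiff_subset) ?_ ?_ (subset_closure ⟨mem_ball_iff_norm.2 (by linarith),
      fun h => (mem_closedBall_iff_norm.1 h).not_gt hzs⟩)
  · rw [norm_div, norm_pow, div_le_iff₀ (by positivity)] at key
    refine key.trans ?_
    calc C * ‖z - w‖ ^ m ≤ C * (2 * R) ^ m := by gcongr
      _ = ε := by rw [hC]; field_simp
  all_goals
    have hcl : closure (ball w (5 / 2 * R) \ closedBall w s) ⊆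
        {z | s ≤ ‖z - w‖ ∧ ‖z - w‖ ≤ 5 / 2 * R} := by
      have hcc : IsClosed ({z : ℂ | s ≤ ‖z - w‖} ∩ {z : ℂ | ‖z - w‖ ≤ 5 / 2 * R}) :=
        (isClosed_le (by fun_prop) (by fun_prop)).inter (isClosed_le (by fun_prop) (by fun_prop))
      refine closure_minimal (fun z hz => ?_) hcc
      have a := mem_ball_iff_norm.1 hz.1
      have b := hz.2
      rw [mem_closedBall_iff_norm, not_le] at b
      exact ⟨b.le, a.le⟩
  · refine DifferentiableOn.diffContOnCl (DifferentiableOn.div (hg.mono fun z hz => ?_)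
      (by fun_prop) fun z hz => ?_)
    · exact mem_ball_iff_norm.2 (by linarith [(hcl hz).2])
    · exact pow_ne_zero _ (norm_pos_iff.1 (s0.trans_le (hcl hz).1))
  · intro y hy
    have hy1 := hcl (frontier_subset_closure hy)
    have hyo : y ∉ ball w (5 / 2 * R) \ closedBall w s := by
      have ho : IsOpen (ball w (5 / 2 * R) \ closedBall w s) :=
        isOpen_ball.sdiff isClosed_closedBall
      rw [ho.frontier_eq] at hy
      exact hy.2
    have hy2 : ‖y - w‖ = s ∨ ‖y - w‖ = 5 / 2 * R := by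
      by_contra hne
      push Not at hne
      exact hyo ⟨mem_ball_iff_norm.2 (lt_of_le_of_ne hy1.2 hne.2), fun h =>
        (mem_closedBall_iff_norm.1 h).not_gt (lt_of_le_of_ne hy1.1 hne.1.symm)⟩
    rw [norm_div, norm_pow]
    rcases hy2 with e | e
    · rw [e, div_le_iff₀ (by positivity)]
      refine (h2 y (mem_ball_iff_norm.2 (by rw [e]; exact s1))).trans ((min_le_right _ _).trans ?_)
      rw [hC, div_pow]
      apply le_of_eq
      field_simp
    · rw [e, div_le_iff₀ (by positivity)]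
      refine (h1 y (mem_ball_iff_norm.2 (by rw [e]; linarith))).trans ?_
      rw [hC]
      have e1 : ε / (2 * R) ^ m * (5 / 2 * R) ^ m = ε * (5 / 4) ^ m := by
        rw [div_mul_eq_mul_div, mul_div_assoc, ← div_pow]
        congr 2
        field_simp
        norm_num
      rw [e1]
      have e2 : (4 / 5 : ℝ) ^ m * (5 / 4) ^ m = 1 := by rw [← mul_pow]; norm_num
      have e3 : (0 : ℝ) < (5 / 4) ^ m := by positivity
      nlinarith

/-- smallness propagates along connected open sets -/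
lemma prop_small {Ω : Set ℂ} (ho : IsOpen Ω) (hc : IsPreconnected Ω) {g : ℕ → ℂ → ℂ} {M : ℝ}
    (hM0 : 0 ≤ M) (hd : ∀ j, DifferentiableOn ℂ (g j) Ω) (hM : ∀ j, ∀ z ∈ Ω, ‖g j z‖ ≤ M) {u : ℂ}
    {s : ℝ} (hs : 0 < s) (hb : ball u s ⊆ Ω)
    (h0 : ∀ ε > 0, ∀ᶠ j in atTop, ∀ z ∈ ball u s, ‖g j z‖ ≤ ε) {z : ℂ} (hz : z ∈ Ω) {ε : ℝ}
    (hε : 0 < ε) : ∀ᶠ j in atTop, ‖g j z‖ ≤ ε := by
  let E : Set ℂ := {z | ∃ t > 0, ∀ ε > 0, ∀ᶠ j in atTop, ∀ w ∈ ball z t, ‖g j w‖ ≤ ε}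
  have hE : IsOpen E := by
    rw [Metric.isOpen_iff]
    rintro x ⟨t, ht, hx⟩
    refine ⟨t / 2, by positivity, fun y hy => ⟨t / 2, by positivity, fun ε hε => ?_⟩⟩
    filter_upwards [hx ε hε] with j hj w hw
    refine hj w ?_
    rw [mem_ball] at hy hw ⊢
    linarith [dist_triangle w y x]
  have key : Ω ⊆ E := by
    refine hc.subset_of_closure_inter_subset hE ⟨u, hb (mem_ball_self hs), s, hs, h0⟩ ?_
    rintro x ⟨hx, hxΩ⟩
    obtain ⟨R0, hR0, hR⟩ := Metric.isOpen_iff.1 ho x hxΩ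
    obtain ⟨R, hR1⟩ : ∃ R, R = R0 / 4 := ⟨_, rfl⟩
    have hRp : 0 < R := by rw [hR1]; positivity
    obtain ⟨w, ⟨t, ht, hw⟩, hxw⟩ := Metric.mem_closure_iff.1 hx R hRp
    have hsub : ball w (3 * R) ⊆ Ω := fun y hy => hR (by
      rw [mem_ball] at hy ⊢
      have := dist_triangle y w x
      rw [dist_comm x w] at hxw
      linarith)
    refine ⟨R, hRp, fun ε hε => ?_⟩
    obtain ⟨δ, hδ, h3⟩ := three (w := w) ht hRp hM0 hε
    filter_upwards [hw δ hδ] with j hj y hy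
    refine h3 (g j) ((hd j).mono hsub) (fun z hz => hM j z (hsub hz)) hj y ?_
    rw [mem_ball] at hy ⊢
    linarith [dist_triangle y x w]
  obtain ⟨t, ht, h⟩ := key hz
  filter_upwards [h ε hε] with j hj
  exact hj z (mem_ball_self ht)

/-- two points of a connected open set lie in a smaller one -/
lemma inner_conn {S : Set ℂ} (ho : IsOpen S) (hc : IsPreconnected S) {a b : ℂ} (ha : a ∈ S)
    (hb : b ∈ S) : ∃ (Ω : Set ℂ) (κ : ℝ), 0 < κ ∧ IsOpen Ω ∧ IsPreconnected Ω ∧ ball a κ ⊆ Ω ∧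
      b ∈ Ω ∧ ∀ z ∈ Ω, closedBall z κ ⊆ S := by
  have hp : IsPathConnected S := ho.isConnected_iff_isPathConnected.1 ⟨⟨a, ha⟩, hc⟩
  obtain ⟨γ, hγ⟩ := hp.joinedIn a ha b hb
  have hK : IsCompact (range γ) := isCompact_range γ.continuous
  have hKS : range γ ⊆ S := by rintro _ ⟨t, rfl⟩; exact hγ t
  obtain ⟨δ, hδ, h⟩ := hK.exists_cthickening_subset_open ho hKS
  refine ⟨(fun p : ℂ × ℂ => p.1 + p.2) '' (range γ ×ˢ ball 0 (δ / 2)), δ / 2, by positivity, ?_,
    ?_, ?_, ?_, ?_⟩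
  · have e : (fun p : ℂ × ℂ => p.1 + p.2) '' (range γ ×ˢ ball 0 (δ / 2)) =
        ⋃ x ∈ range γ, ball x (δ / 2) := by
      ext z
      simp only [mem_image, mem_prod, Prod.exists, mem_iUnion₂]
      constructor
      · rintro ⟨x, y, ⟨hx, hy⟩, rfl⟩
        exact ⟨x, hx, by simpa using hy⟩
      · rintro ⟨x, hx, hz⟩
        exact ⟨x, z - x, ⟨hx, by simpa [dist_eq_norm] using hz⟩, by ring⟩
    rw [e]
    exact isOpen_biUnion fun _ _ => isOpen_ball
  · exact ((isPreconnected_range γ.continuous).prod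
      (convex_ball (0 : ℂ) (δ / 2)).isPreconnected).image _ (by fun_prop)
  · intro z hz
    exact ⟨(a, z - a), ⟨⟨0, by simp⟩, by simpa [dist_eq_norm] using hz⟩, by simp⟩
  · exact ⟨(b, 0), ⟨⟨1, by simp⟩, by simp; positivity⟩, by simp⟩
  · rintro _ ⟨⟨x, y⟩, ⟨hx, hy⟩, rfl⟩ z hz
    refine h (mem_cthickening_of_dist_le z x δ _ hx ?_)
    simp only [mem_ball, dist_zero_right] at hy
    simp only [mem_closedBall, dist_eq_norm] at hz ⊢
    have := norm_add_le (z - (x + y)) y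
    rw [show z - (x + y) + y = z - x by ring] at this
    linarith

end Pool.Agent.KS6_2.RX
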