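import Pool.Agent.KS6_2.RX.H

set_option autoImplicit false
open Set Filter Topology Metric Complex
open scoped Real

namespace Pool.Agent.KS6_2.RX

variable {N : ℕ → ℕ} {r κ e : ℕ → ℝ}

theorem Good2.uniq (G : Good2 N r κ e) {f : C(XX N r, ℂ)}
    (hf : f ∈ closure (A0 (XX N r) : Set C(XX N r, ℂ))) {U : Set ℂ} (hU : IsOpen U)
    (hne : (U ∩ XX N r).Nonempty) (h0 : ∀ z : XX N r, z.1 ∈ U → f z = 0) : f = 0 := by
  have : CompactSpace (XX N r) := isCompact_iff_compactSpace.1 XX_compact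
  obtain ⟨x, hxU, hxX⟩ := hne
  obtain ⟨ρ0, hρ0, hρU0⟩ := Metric.isOpen_iff.1 hU x hxU
  obtain ⟨ka, a, haP, haS, haT, hxa⟩ := G.dens hxX (half_pos hρ0)
  obtain ⟨ρ, hρ, hρU⟩ : ∃ ρ > 0, ball a ρ ⊆ U := ⟨ρ0 / 2, half_pos hρ0, fun y hy => hρU0 (by
    rw [mem_ball] at hy ⊢
    have := dist_triangle y a x
    rw [dist_comm a x] at this
    linarith)⟩
  ext ⟨z, hz⟩
  rw [ContinuousMap.zero_apply]
  by_contra hfz
  have hpos : 0 < ‖f ⟨z, hz⟩‖ := norm_pos_iff.2 hfz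
  obtain ⟨δ, hδ, hc⟩ := Metric.continuous_iff.1 f.continuous ⟨z, hz⟩ _ hpos
  obtain ⟨kb, b, hbP, hbS, hbT, hzb⟩ := G.dens hz hδ
  have hbX : b ∈ XX N r := G.memX hbS hbT
  have hfb : 0 < ‖f ⟨b, hbX⟩‖ := by
    rw [norm_pos_iff]
    intro h
    have := hc ⟨b, hbX⟩ (by rw [Subtype.dist_eq, dist_comm]; exact hzb)
    rw [h, dist_eq_norm, zero_sub, norm_neg] at this
    exact lt_irrefl _ this
  obtain ⟨B, hB⟩ : ∃ B, B = ‖f‖ + 1 := ⟨_, rfl⟩
  have hB1 : 1 ≤ B := by linarith [norm_nonneg f]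
  obtain ⟨n1, hn1⟩ := exists_nat_ge B
  obtain ⟨n2, hn2⟩ := exists_nat_one_div_lt hρ
  obtain ⟨n3, hn3⟩ := exists_nat_one_div_lt (half_pos hfb)
  obtain ⟨n, h1, h2, h3, h4, h5⟩ : ∃ n, n1 ≤ n ∧ n2 ≤ n ∧ n3 ≤ n ∧ ka ≤ n ∧ kb ≤ n :=
    ⟨n1 + n2 + n3 + ka + kb, by omega, by omega, by omega, by omega, by omega⟩
  have hnB : B ≤ n + 1 := hn1.trans (by have : (n1 : ℝ) ≤ n := by exact_mod_cast h1
                                        linarith)
  have hnρ : 1 / ((n : ℝ) + 1) < ρ := lt_of_le_of_lt (by gcongr) hn2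
  have hnf : 1 / ((n : ℝ) + 1) < ‖f ⟨b, hbX⟩‖ / 2 := lt_of_le_of_lt (by gcongr) hn3
  have St := G.st n
  have he0 := St.e0
  have he1 := St.e1
  have hn0 : (0 : ℝ) ≤ n := n.cast_nonneg
  have he2 : e n ≤ 1 := by
    have e3 : 1 / ((n : ℝ) + 1) ≤ 1 := by rw [div_le_one (by positivity)]; linarith
    nlinarith
  obtain ⟨u, ⟨p, q, a1, a2⟩, a3⟩ := Metric.mem_closure_iff.1 hf (e n / 2) (by positivity)
  obtain ⟨v, hv, a4⟩ := dense XX_compact.isClosed p _ q rfl a1 (e n / 2) (by positivity)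
  have a5 : ∀ z (hz : z ∈ XX N r), ‖f ⟨z, hz⟩ - v z‖ ≤ e n := by
    intro z hz
    have b1 := (ContinuousMap.dist_apply_le_dist (f := f) (g := u) ⟨z, hz⟩).trans a3.le
    rw [dist_eq_norm, a2] at b1
    linarith [norm_sub_le_norm_sub_add_norm_sub (f ⟨z, hz⟩) (p.eval z / q.eval z) (v z), a4 z hz]
  have a6 : ∀ z ∈ XX N r, ‖v z‖ ≤ B := fun z hz => by
    linarith [norm_sub_norm_le (v z) (f ⟨z, hz⟩), norm_sub_rev (v z) (f ⟨z, hz⟩), a5 z hz,
      f.norm_coe_le_norm ⟨z, hz⟩]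
  obtain ⟨g, g1, g2⟩ := G.app n hv (by linarith) a6
  have hgS : DifferentiableOn ℂ g (sq \ TT N r (n + 1)) := g1.mono (sub_Xn n)
  have haP' : a ∈ PP (N n) := PP_mono (G.N0 _) (G.N0 _) (G.dvd' h4) haP
  have hbP' : b ∈ PP (N n) := PP_mono (G.N0 _) (G.N0 _) (G.dvd' h5) hbP
  have haS' : a ∈ PP (N n) ∩ (sq \ TT N r (n + 1)) := ⟨haP', haS, haT _⟩
  have hbS' : b ∈ PP (N n) ∩ (sq \ TT N r (n + 1)) := ⟨hbP', hbS, hbT _⟩
  have hpt := St.pt a haS'
  have hk1 := St.k1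
  have hk0 := St.k0
  have hgb := St.unq a haS' b hbS' g hgS (fun z hz => ?_) fun z hz => ?_
  · have c1 := g2 b (sub_Xn n hbS'.2) fun m hm => by
      obtain ⟨k, hk⟩ := (PP_int (G.N0 n) (G.dvd' hm.le) hbP').1
      exact ⟨k, Or.inl hk⟩
    have c2 := a5 b hbX
    have c3 : ‖f ⟨b, hbX⟩‖ ≤ ‖f ⟨b, hbX⟩ - v b‖ + ‖v b - g b‖ + ‖g b‖ := by
      have := norm_add₃_le (a := f ⟨b, hbX⟩ - v b) (b := v b - g b) (c := g b)
      rwa [show f ⟨b, hbX⟩ - v b + (v b - g b) + g b = f ⟨b, hbX⟩ by ring] at this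
    rw [norm_sub_rev (v b) (g b)] at c3
    have c4 : e n * B ≤ e n * (n + 1) := by gcongr
    nlinarith [c1.2]
  · refine G.mesh n hgS ((closedBall_subset_closedBall (by linarith)).trans hz) fun y hy hm => ?_
    have hyS := hz (closedBall_subset_closedBall (by linarith) hy)
    obtain ⟨c1, c2⟩ := g2 y (sub_Xn n hyS) hm
    have c3 := a6 y c1
    have c4 := norm_sub_norm_le (g y) (v y)
    have c5 : e n * B ≤ 1 * B := by gcongr
    linarith
  · have hsub : closedBall z (κ n / 2) ⊆ closedBall a (κ n) := fun y hy => by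
      rw [mem_ball] at hz
      rw [mem_closedBall] at hy ⊢
      linarith [dist_triangle y z a]
    refine G.mesh n hgS (hsub.trans hpt) fun y hy hm => ?_
    have hyS := hpt (hsub hy)
    obtain ⟨c1, c2⟩ := g2 y (sub_Xn n hyS) hm
    have hyU : y ∈ U := hρU (by
      have := hsub hy
      rw [mem_closedBall] at this
      rw [mem_ball]
      linarith)
    have c3 := a5 y c1
    rw [h0 ⟨y, c1⟩ hyU, zero_sub, norm_neg] at c3
    have c4 := norm_sub_norm_le (g y) (v y)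
    have c5 : e n * B ≤ e n * (n + 1) := by gcongr
    linarith

lemma Good2.zero (G : Good2 N r κ e) : (0 : ℂ) ∈ XX N r := by
  refine mem_XX.2 ⟨by simp, fun m q _ => ?_⟩
  have a1 := (sep (G.N0 m) (t := (0 : ℂ).re) (m := 0) (by simp) q.1).trans (re_le 0 _ q)
  linarith [G.rN' m, G.r0 m]

lemma Good2.one (G : Good2 N r κ e) : (1 : ℂ) ∈ XX N r := by
  refine mem_XX.2 ⟨by simp, fun m q _ => ?_⟩
  have a1 := (sep (G.N0 m) (t := (1 : ℂ).im) (m := 0) (by simp) q.2).trans (im_le 1 _ q)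
  linarith [G.rN' m, G.r0 m]

/-- the indices of the discs -/
abbrev Idx (N : ℕ → ℕ) (r : ℕ → ℝ) : Type :=
  {p : Σ _ : ℕ, ℤ × ℤ // Kept N r p.1 p.2 ∧ p.2 ∈ box (N p.1)}

lemma Good2.sums (G : Good2 N r κ e) (A : Finset (Idx N r)) :
    ∑ p ∈ A, r p.1.1 ≤ 8 * ((N 0 : ℝ) ^ 2 * r 0) := by
  obtain ⟨K, hK⟩ := (A.image fun p => p.1.1).exists_nat_subset_range
  calc _ = ∑ p ∈ A.map (Function.Embedding.subtype _), r p.1 := by
        rw [Finset.sum_map]; rfl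
    _ ≤ ∑ p ∈ (Finset.range K).sigma fun k => box (N k), r p.1 := by
        refine Finset.sum_le_sum_of_subset_of_nonneg (fun p hp => ?_) fun p _ _ => (G.r0 _).le
        obtain ⟨p, a, rfl⟩ := Finset.mem_map.1 hp
        exact Finset.mem_sigma.2 ⟨hK (Finset.mem_image_of_mem _ a), p.2.2⟩
    _ ≤ ∑ k ∈ Finset.range K, 4 * ((N 0 : ℝ) ^ 2 * r 0) * (1 / 2 : ℝ) ^ k := by
        rw [Finset.sum_sigma]
        refine Finset.sum_le_sum fun k _ => ?_
        have b1 := G.eps 0 k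
        rw [zero_add] at b1
        change ∑ _s ∈ box (N k), r k ≤ _
        rw [Finset.sum_const, nsmul_eq_mul, box, Finset.card_product, Int.card_Ico]
        have e1 : ((N k : ℤ) - -(N k : ℤ)).toNat = 2 * N k := by omega
        rw [e1]
        push_cast
        nlinarith
    _ ≤ _ := by
        rw [← Finset.mul_sum]
        have b1 := mul_le_mul_of_nonneg_left (sum_geometric_two_le K)
          (show (0 : ℝ) ≤ 4 * ((N 0 : ℝ) ^ 2 * r 0) by have := G.r0 0; positivity)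
        linarith

lemma Good2.disc (G : Good2 N r κ e) (p : Idx N r) :
    closedBall (gp (N p.1.1) p.1.2) (r p.1.1) ⊆ sq := by
  intro z hz
  have h3 := Finset.mem_product.1 p.2.2
  have h4 := (mem_closedBall_iff_norm.1 hz).trans (G.rN _)
  exact ⟨in1s (G.N0 _) h3.1 ((re_le z _ _).trans h4), in1s (G.N0 _) h3.2 ((im_le z _ _).trans h4)⟩

lemma Good2.disj' (G : Good2 N r κ e) {p q : Idx N r} (h : p ≠ q) :
    Disjoint (closedBall (gp (N p.1.1) p.1.2) (r p.1.1))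
      (closedBall (gp (N q.1.1) q.1.2) (r q.1.1)) := by
  obtain ⟨⟨k, a⟩, h1, h2⟩ := p
  obtain ⟨⟨l, b⟩, h3, h4⟩ := q
  refine G.disj h1 h3 ?_
  by_contra hcon
  push Not at hcon
  obtain ⟨e1, rfl⟩ := hcon
  obtain rfl : k = l := e1
  exact h rfl

lemma Good2.eqX (G : Good2 N r κ e) :
    XX N r = (Icc (-1) 1 ×ℂ Icc (-1) 1) \ ⋃ p : Idx N r, ball (gp (N p.1.1) p.1.2) (r p.1.1) := by
  ext z
  constructor
  · intro hz
    obtain ⟨h1, h2⟩ := mem_XX.1 hz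
    refine ⟨h1, fun h => ?_⟩
    obtain ⟨p, hp⟩ := mem_iUnion.1 h
    exact (h2 _ _ p.2.1).not_gt (mem_ball_iff_norm.1 hp)
  · rintro ⟨h1, h2⟩
    refine mem_XX.2 ⟨h1, fun m q hq => ?_⟩
    by_contra hcon
    push Not at hcon
    have h4 := hcon.le.trans (G.rN _)
    exact h2 (mem_iUnion.2 ⟨⟨⟨m, q⟩, hq, Finset.mem_product.2
      ⟨in2 (G.N0 _) h1.1 ((re_le z _ _).trans h4), in2 (G.N0 _) h1.2 ((im_le z _ _).trans h4)⟩⟩,
      mem_ball_iff_norm.2 hcon⟩)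

end Pool.Agent.KS6_2.RX
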